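import Pool.Agent.H446.AP4.Mul

/-!
# Algebraic numbers that are integral at `p`
-/

set_option autoImplicit false

namespace Pool.Agent.H446.AP4

open Polynomial Finset Pool.Agent.H446.AP

/-- The algebraic numbers that are integral at `p`. -/
def pInt (p : ℕ) [hp : Fact p.Prime] : Subring ℂ where
  carrier := {z | ∃ s : ℤ, ¬ (p : ℤ) ∣ s ∧ IsIntegral ℤ ((s : ℂ) * z)}
  zero_mem' := ⟨1, by
    rw [← Nat.cast_one, Int.natCast_dvd_natCast, Nat.dvd_one]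
    exact hp.out.ne_one, by
    rw [mul_zero]
    exact isIntegral_zero⟩
  one_mem' := ⟨1, by
    rw [← Nat.cast_one, Int.natCast_dvd_natCast, Nat.dvd_one]
    exact hp.out.ne_one, by
    rw [mul_one, Int.cast_one]
    exact isIntegral_one⟩
  add_mem' := by
    rintro a b ⟨s, hs, hs'⟩ ⟨t, ht, ht'⟩
    refine ⟨s * t, fun h => ?_, ?_⟩
    · rcases (Nat.prime_iff_prime_int.1 hp.out).dvd_or_dvd h with h | h
      · exact hs h
      · exact ht h
    · have h1 : ((s * t : ℤ) : ℂ) * (a + b) = (t : ℂ) * ((s : ℂ) * a) + (s : ℂ) * ((t : ℂ) * b) := by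
        push_cast
        ring
      rw [h1]
      exact ((isIntegral_algebraMap (x := t)).mul hs').add ((isIntegral_algebraMap (x := s)).mul ht')
  mul_mem' := by
    rintro a b ⟨s, hs, hs'⟩ ⟨t, ht, ht'⟩
    refine ⟨s * t, fun h => ?_, ?_⟩
    · rcases (Nat.prime_iff_prime_int.1 hp.out).dvd_or_dvd h with h | h
      · exact hs h
      · exact ht h
    · have h1 : ((s * t : ℤ) : ℂ) * (a * b) = ((s : ℂ) * a) * ((t : ℂ) * b) := by
        push_cast
        ring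
      rw [h1]
      exact hs'.mul ht'
  neg_mem' := by
    rintro a ⟨s, hs, hs'⟩
    refine ⟨s, hs, ?_⟩
    rw [mul_neg]
    exact hs'.neg

lemma mem_pInt {p : ℕ} [Fact p.Prime] {z : ℂ} :
    z ∈ pInt p ↔ ∃ s : ℤ, ¬ (p : ℤ) ∣ s ∧ IsIntegral ℤ ((s : ℂ) * z) := Iff.rfl

lemma inv_mem_pInt {p : ℕ} [Fact p.Prime] {l : ℤ} (hl : ¬ (p : ℤ) ∣ l) : ((l : ℂ))⁻¹ ∈ pInt p := by
  refine ⟨l, hl, ?_⟩
  have hl0 : (l : ℂ) ≠ 0 := by
    intro h
    have : l = 0 := by exact_mod_cast h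
    exact hl (this ▸ dvd_zero _)
  rw [mul_inv_cancel₀ hl0]
  exact isIntegral_one

lemma root_mem_pInt {p : ℕ} [Fact p.Prime] {F : ℤ[X]} (hF : ¬ (p : ℤ) ∣ F.leadingCoeff) {z : ℂ}
    (hz : aeval z F = 0) : z ∈ pInt p := by
  refine ⟨F.leadingCoeff, hF, ?_⟩
  have := isIntegral_leadingCoeff_smul F z hz
  rwa [zsmul_eq_mul] at this

/-- An integer that is `p ^ k` times a `p`-integral number is divisible by `p ^ k`. -/
lemma pow_dvd_of_mem {p : ℕ} [hp : Fact p.Prime] {a : ℤ} {k : ℕ} {z : ℂ} (hz : z ∈ pInt p)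
    (h : (a : ℂ) = (p : ℂ) ^ k * z) : (p : ℤ) ^ k ∣ a := by
  obtain ⟨s, hs, hs'⟩ := hz
  have hp0 : (p : ℂ) ≠ 0 := by exact_mod_cast hp.out.ne_zero
  have hp0' : (p : ℚ) ≠ 0 := by exact_mod_cast hp.out.ne_zero
  have h1 : (s : ℂ) * z = algebraMap ℚ ℂ ((s : ℚ) * a / (p : ℚ) ^ k) := by
    rw [map_div₀, map_mul, map_pow, map_intCast, map_intCast, map_natCast, h]
    field_simp
  rw [h1] at hs'
  have h2 : IsIntegral ℤ ((s : ℚ) * a / (p : ℚ) ^ k) :=
    (isIntegral_algebraMap_iff (algebraMap ℚ ℂ).injective).1 hs'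
  obtain ⟨m, hm⟩ := IsIntegrallyClosed.isIntegral_iff.1 h2
  rw [eq_div_iff (pow_ne_zero _ hp0'), eq_intCast] at hm
  have h3 : m * (p : ℤ) ^ k = s * a := by exact_mod_cast hm
  have h4 : (p : ℤ) ^ k ∣ s * a := ⟨m, by rw [← h3]; ring⟩
  refine (IsCoprime.pow_left ?_).dvd_of_dvd_mul_left h4
  exact (Prime.coprime_iff_not_dvd (Nat.prime_iff_prime_int.1 hp.out)).2 hs

end Pool.Agent.H446.AP4
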