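import Mathlib

/-!
# The degree of the `p`-curvature in a parameter
-/

set_option autoImplicit false

namespace Pool.Agent.H446.AP4

open Polynomial Finset

/-! ### Coefficientwise maps -/

section mapc

variable {R S : Type*} [CommRing R] [CommRing S]

/-- Apply a function to the coefficients. -/
noncomputable def mapc (φ : R → S) (F : R[X]) : S[X] := ∑ k ∈ range (F.natDegree + 1), monomial k (φ (F.coeff k))

lemma coeff_mapc {φ : R → S} (hφ : φ 0 = 0) (F : R[X]) (k : ℕ) : (mapc φ F).coeff k = φ (F.coeff k) := by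
  unfold mapc
  rw [finsetSum_coeff]
  simp only [coeff_monomial]
  rw [Finset.sum_ite_eq' (range (F.natDegree + 1)) k fun j => φ (F.coeff j)]
  split_ifs with h
  · rfl
  · rw [mem_range, not_lt] at h
    rw [coeff_eq_zero_of_natDegree_lt h, hφ]

end mapc

/-! ### Degrees -/

section top

variable {R : Type*} [CommRing R]

/-- The degree is at most `u`. -/
def Sup (u : ℝ) (F : R[X]) : Prop := ∀ k : ℕ, F.coeff k ≠ 0 → (k : ℝ) ≤ u

/-- The coefficient of degree `u`. -/
noncomputable def topc (u : ℝ) (F : R[X]) : R := if (⌊u⌋₊ : ℝ) = u then F.coeff ⌊u⌋₊ else 0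

lemma Sup.mono {u v : ℝ} {F : R[X]} (h : Sup u F) (huv : u ≤ v) : Sup v F := fun k hk => (h k hk).trans huv

lemma sup_zero (u : ℝ) : Sup u (0 : R[X]) := fun k hk => absurd (coeff_zero k) hk

lemma Sup.add {u : ℝ} {F G : R[X]} (hF : Sup u F) (hG : Sup u G) : Sup u (F + G) := by
  intro k hk
  by_contra h
  apply hk
  rw [coeff_add]
  have h1 : F.coeff k = 0 := by
    by_contra h1
    exact h (hF k h1)
  have h2 : G.coeff k = 0 := by
    by_contra h2
    exact h (hG k h2)
  rw [h1, h2, add_zero]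

lemma Sup.neg {u : ℝ} {F : R[X]} (hF : Sup u F) : Sup u (-F) := by
  intro k hk
  rw [coeff_neg, neg_ne_zero] at hk
  exact hF k hk

lemma Sup.sub {u : ℝ} {F G : R[X]} (hF : Sup u F) (hG : Sup u G) : Sup u (F - G) := by
  rw [sub_eq_add_neg]
  exact hF.add hG.neg

lemma Sup.sum {ι : Type*} {u : ℝ} (s : Finset ι) {F : ι → R[X]} (hF : ∀ i ∈ s, Sup u (F i)) :
    Sup u (∑ i ∈ s, F i) := by
  classical
  induction s using Finset.induction_on with
  | empty => exact sup_zero u
  | insert a s has ih =>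
    rw [Finset.sum_insert has]
    exact (hF a (mem_insert_self _ _)).add (ih fun i hi => hF i (mem_insert_of_mem hi))

lemma Sup.mul {u v : ℝ} {F G : R[X]} (hF : Sup u F) (hG : Sup v G) : Sup (u + v) (F * G) := by
  intro k hk
  by_contra h
  apply hk
  rw [coeff_mul]
  refine Finset.sum_eq_zero fun x hx => ?_
  rw [HasAntidiagonal.mem_antidiagonal] at hx
  by_contra h1
  have h2 : F.coeff x.1 ≠ 0 := left_ne_zero_of_mul h1
  have h3 : G.coeff x.2 ≠ 0 := right_ne_zero_of_mul h1
  have h4 := hF _ h2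
  have h5 := hG _ h3
  apply h
  rw [← hx]
  push_cast
  linarith

lemma sup_C (r : R) : Sup 0 (C r : R[X]) := by
  intro k hk
  rw [coeff_C] at hk
  split_ifs at hk with h
  · rw [h, Nat.cast_zero]
  · exact absurd rfl hk

lemma Sup.natDegree_le {a : ℕ} {F : R[X]} (h : Sup (a : ℝ) F) : F.natDegree ≤ a := by
  rw [natDegree_le_iff_coeff_eq_zero]
  intro k hk
  by_contra h1
  have h2 : (k : ℝ) ≤ a := h k h1
  have h3 : k ≤ a := by exact_mod_cast h2
  omega

lemma sup_mapc {φ : R → R} (hφ : φ 0 = 0) {u : ℝ} {F : R[X]} (h : Sup u F) : Sup u (mapc φ F) := by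
  intro k hk
  rw [coeff_mapc hφ] at hk
  refine h k fun h0 => hk ?_
  rw [h0, hφ]

lemma topc_add (u : ℝ) (F G : R[X]) : topc u (F + G) = topc u F + topc u G := by
  unfold topc
  split_ifs
  · exact coeff_add _ _ _
  · simp

lemma topc_zero (u : ℝ) : topc u (0 : R[X]) = 0 := by
  unfold topc
  split_ifs
  · exact coeff_zero _
  · rfl

lemma topc_sum {ι : Type*} (u : ℝ) (s : Finset ι) (F : ι → R[X]) : topc u (∑ i ∈ s, F i) = ∑ i ∈ s, topc u (F i) := by
  classical
  induction s using Finset.induction_on with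
  | empty => simp [topc_zero]
  | insert a s has ih => rw [Finset.sum_insert has, Finset.sum_insert has, topc_add, ih]

lemma topc_eq_zero {u v : ℝ} {F : R[X]} (h : Sup u F) (huv : u < v) : topc v F = 0 := by
  unfold topc
  split_ifs with h1
  · by_contra h2
    have := h _ h2
    rw [h1] at this
    linarith
  · rfl

lemma topc_natCast (a : ℕ) (F : R[X]) : topc (a : ℝ) F = F.coeff a := by
  unfold topc
  rw [Nat.floor_natCast, if_pos rfl]

lemma topc_ne_zero {u : ℝ} {F : R[X]} (h : topc u F ≠ 0) : ∃ a : ℕ, (a : ℝ) = u ∧ topc u F = F.coeff a := by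
  unfold topc at h ⊢
  split_ifs at h ⊢ with h1
  · exact ⟨_, h1, rfl⟩
  · exact absurd rfl h

lemma topc_mul {u v : ℝ} {F G : R[X]} (hF : Sup u F) (hG : Sup v G) :
    topc (u + v) (F * G) = topc u F * topc v G := by
  by_cases h1 : ∃ a : ℕ, (a : ℝ) = u
  · obtain ⟨a, rfl⟩ := h1
    by_cases h2 : ∃ b : ℕ, (b : ℝ) = v
    · obtain ⟨b, rfl⟩ := h2
      rw [← Nat.cast_add, topc_natCast, topc_natCast, topc_natCast]
      exact Polynomial.coeff_mul_add_eq_of_natDegree_le hF.natDegree_le hG.natDegree_le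
    · have h3 : topc v G = 0 := by
        unfold topc
        rw [if_neg]
        exact fun h => h2 ⟨_, h⟩
      rw [h3, mul_zero]
      by_contra h4
      obtain ⟨k, hk, hk'⟩ := topc_ne_zero h4
      rw [hk', coeff_mul] at h4
      apply h4
      refine Finset.sum_eq_zero fun x hx => ?_
      rw [HasAntidiagonal.mem_antidiagonal] at hx
      by_contra h5
      have h6 := hF _ (left_ne_zero_of_mul h5)
      have h7 := hG _ (right_ne_zero_of_mul h5)
      have h8 : (x.1 : ℝ) + x.2 = k := by exact_mod_cast hx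
      exact h2 ⟨x.2, by linarith⟩
  · have h3 : topc u F = 0 := by
      unfold topc
      rw [if_neg]
      exact fun h => h1 ⟨_, h⟩
    rw [h3, zero_mul]
    by_contra h4
    obtain ⟨k, hk, hk'⟩ := topc_ne_zero h4
    rw [hk', coeff_mul] at h4
    apply h4
    refine Finset.sum_eq_zero fun x hx => ?_
    rw [HasAntidiagonal.mem_antidiagonal] at hx
    by_contra h5
    have h6 := hF _ (left_ne_zero_of_mul h5)
    have h7 := hG _ (right_ne_zero_of_mul h5)
    have h8 : (x.1 : ℝ) + x.2 = k := by exact_mod_cast hx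
    exact h1 ⟨x.1, by linarith⟩

end top

/-! ### The curvature -/

section curv

variable {ι : Type*} [Fintype ι] [DecidableEq ι] {R S : Type*} [CommRing R] [CommRing S]

/-- `G_0 = 1` and `G_{m+1} = Δ G_m' - m Δ' G_m + B G_m`. -/
def curv (δ : R → R) (Δ : R) (B : Matrix ι ι R) : ℕ → Matrix ι ι R
  | 0 => 1
  | m + 1 => Matrix.of fun i j => Δ * δ (curv δ Δ B m i j) - m * δ Δ * curv δ Δ B m i j + (B * curv δ Δ B m) i j

lemma curv_succ (δ : R → R) (Δ : R) (B : Matrix ι ι R) (m : ℕ) (i j : ι) :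
    curv δ Δ B (m + 1) i j =
      Δ * δ (curv δ Δ B m i j) - m * δ Δ * curv δ Δ B m i j + (B * curv δ Δ B m) i j := rfl

lemma map_curv (f : R →+* S) {δ : R → R} {δ' : S → S} (hf : ∀ r, f (δ r) = δ' (f r)) (Δ : R) (B : Matrix ι ι R)
    (m : ℕ) : (curv δ Δ B m).map f = curv δ' (f Δ) (B.map f) m := by
  induction m with
  | zero =>
    show (1 : Matrix ι ι R).map f = 1
    exact Matrix.map_one f (map_zero f) (map_one f)
  | succ m ih =>
    ext i j
    rw [Matrix.map_apply, curv_succ, curv_succ, map_add, map_sub, map_mul, map_mul, map_mul, hf, hf, map_natCast,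
      ← ih]
    congr 1
    rw [← Matrix.map_mul]
    rfl

/-- The degrees of the entries. -/
theorem curv_sup {δ : R → R} (hδ : δ 0 = 0) {δ₀ θ : ℝ} (hθ : 0 ≤ θ) {Δ : R[X]} (hΔ : Sup δ₀ Δ)
    (B : Matrix ι ι R[X]) (w : ι → ℝ) (hB : ∀ i j, Sup (δ₀ + θ * (1 + w i - w j)) (B i j)) (m : ℕ) :
    ∀ i j, Sup (δ₀ * m + θ * (m + w i - w j)) (curv (mapc δ) Δ B m i j) := by
  induction m with
  | zero =>
    intro i j
    show Sup _ ((1 : Matrix ι ι R[X]) i j)
    by_cases h : i = j
    · subst h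
      rw [Matrix.one_apply_eq]
      refine (sup_C (1 : R)).mono ?_
      push_cast
      linarith
    · rw [Matrix.one_apply_ne h]
      exact sup_zero _
  | succ m ih =>
    have hle : ∀ i j, δ₀ + (δ₀ * m + θ * (m + w i - w j)) ≤
        δ₀ * ((m + 1 : ℕ) : ℝ) + θ * (((m + 1 : ℕ) : ℝ) + w i - w j) := by
      intro i j
      push_cast
      nlinarith
    intro i j
    have h1 : Sup (δ₀ + (δ₀ * m + θ * (m + w i - w j))) (Δ * mapc δ (curv (mapc δ) Δ B m i j)) :=
      hΔ.mul (sup_mapc hδ (ih i j))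
    have h2 : Sup (δ₀ + (δ₀ * m + θ * (m + w i - w j))) ((m : R[X]) * mapc δ Δ * curv (mapc δ) Δ B m i j) := by
      rw [mul_assoc, ← C_eq_natCast]
      have := (sup_C (m : R)).mul ((sup_mapc hδ hΔ).mul (ih i j))
      rwa [zero_add] at this
    rw [curv_succ, Matrix.mul_apply]
    refine ((h1.sub h2).mono (hle i j)).add (Sup.sum _ fun l _ => ?_)
    have h4 : δ₀ * ((m + 1 : ℕ) : ℝ) + θ * (((m + 1 : ℕ) : ℝ) + w i - w j) =
        (δ₀ + θ * (1 + w i - w l)) + (δ₀ * m + θ * (m + w l - w j)) := by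
      push_cast
      ring
    rw [h4]
    exact (hB i l).mul (ih l j)

/-- The coefficients of the largest degree. -/
theorem curv_top {δ : R → R} (hδ : δ 0 = 0) {δ₀ θ : ℝ} (hθ : 0 < θ) {Δ : R[X]} (hΔ : Sup δ₀ Δ)
    (B : Matrix ι ι R[X]) (w : ι → ℝ) (hB : ∀ i j, Sup (δ₀ + θ * (1 + w i - w j)) (B i j)) (m : ℕ) :
    ∀ i j, topc (δ₀ * m + θ * (m + w i - w j)) (curv (mapc δ) Δ B m i j) =
      ((Matrix.of fun i j => topc (δ₀ + θ * (1 + w i - w j)) (B i j)) ^ m : Matrix ι ι R) i j := by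
  induction m with
  | zero =>
    intro i j
    show topc _ ((1 : Matrix ι ι R[X]) i j) = _
    rw [pow_zero]
    by_cases h : i = j
    · subst h
      rw [Matrix.one_apply_eq, Matrix.one_apply_eq]
      have : δ₀ * ((0 : ℕ) : ℝ) + θ * (((0 : ℕ) : ℝ) + w i - w i) = ((0 : ℕ) : ℝ) := by
        push_cast
        ring
      rw [this, topc_natCast, coeff_one_zero]
    · rw [Matrix.one_apply_ne h, Matrix.one_apply_ne h, topc_zero]
  | succ m ih =>
    have hS := curv_sup hδ hθ.le hΔ B w hB m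
    have hlt : ∀ i j, δ₀ + (δ₀ * m + θ * (m + w i - w j)) <
        δ₀ * ((m + 1 : ℕ) : ℝ) + θ * (((m + 1 : ℕ) : ℝ) + w i - w j) := by
      intro i j
      push_cast
      nlinarith
    intro i j
    have h1 : Sup (δ₀ + (δ₀ * m + θ * (m + w i - w j))) (Δ * mapc δ (curv (mapc δ) Δ B m i j)) :=
      hΔ.mul (sup_mapc hδ (hS i j))
    have h2 : Sup (δ₀ + (δ₀ * m + θ * (m + w i - w j))) ((m : R[X]) * mapc δ Δ * curv (mapc δ) Δ B m i j) := by
      rw [mul_assoc, ← C_eq_natCast]
      have := (sup_C (m : R)).mul ((sup_mapc hδ hΔ).mul (hS i j))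
      rwa [zero_add] at this
    rw [curv_succ, Matrix.mul_apply, topc_add, topc_eq_zero (h1.sub h2) (hlt i j), zero_add, topc_sum, pow_succ',
      Matrix.mul_apply]
    refine Finset.sum_congr rfl fun l _ => ?_
    have h4 : δ₀ * ((m + 1 : ℕ) : ℝ) + θ * (((m + 1 : ℕ) : ℝ) + w i - w j) =
        (δ₀ + θ * (1 + w i - w l)) + (δ₀ * m + θ * (m + w l - w j)) := by
      push_cast
      ring
    rw [h4, topc_mul (hB i l) (hS l j), ih l j, Matrix.of_apply]

end curv

/-! ### Companion matrices -/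

section companion

variable {R : Type*} [CommRing R]

/-- The companion matrix, multiplied by `Δ`. -/
def comp {n : ℕ} (Δ : R) (a : Fin n → R) : Matrix (Fin n) (Fin n) R :=
  Matrix.of fun i j => if (i : ℕ) + 1 = n then a j else if (j : ℕ) = i + 1 then -Δ else 0

lemma comp_pow {n : ℕ} (Δ : R) (a : Fin n → R) (hn : 0 < n) (k : ℕ) (hk : k < n) (j : Fin n) :
    (comp Δ a ^ k) ⟨0, hn⟩ j = if (j : ℕ) = k then (-Δ) ^ k else 0 := by
  induction k generalizing j with
  | zero =>
    rw [pow_zero, pow_zero, Matrix.one_apply]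
    congr 1
    rw [Fin.ext_iff]
    simp only [eq_iff_iff]
    exact eq_comm
  | succ k ih =>
    rw [pow_succ, Matrix.mul_apply, Finset.sum_eq_single (⟨k, by omega⟩ : Fin n)]
    · rw [ih (by omega)]
      simp only [if_true, comp, Matrix.of_apply]
      rw [if_neg (by omega)]
      split_ifs
      · rw [pow_succ]
      · rw [mul_zero]
    · intro l _ hl
      rw [ih (by omega), if_neg, zero_mul]
      exact fun h => hl (Fin.ext h)
    · intro h
      exact absurd (Finset.mem_univ _) h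

/-- A nilpotent companion matrix over a domain. -/
lemma comp_nilpotent [IsDomain R] {n : ℕ} {Δ : R} (hΔ : Δ ≠ 0) (a : Fin n → R) (h : IsNilpotent (comp Δ a)) :
    ∀ j, a j = 0 := by
  classical
  rcases Nat.eq_zero_or_pos n with hn | hn
  · subst hn
    exact fun j => j.elim0
  have h1 := Matrix.isNilpotent_charpoly_sub_pow_of_isNilpotent h
  have h2 : (comp Δ a).charpoly = X ^ n := by
    have h3 := h1.eq_zero
    rw [Fintype.card_fin] at h3
    exact sub_eq_zero.1 h3
  have h3 := Matrix.aeval_self_charpoly (comp Δ a)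
  rw [h2, map_pow, aeval_X] at h3
  intro j
  have h4 := congrFun (congrFun h3 ⟨0, hn⟩) j
  obtain ⟨k, rfl⟩ : ∃ k, n = k + 1 := ⟨n - 1, by omega⟩
  rw [pow_succ, Matrix.mul_apply, Finset.sum_eq_single (⟨k, by omega⟩ : Fin (k + 1))] at h4
  · rw [comp_pow Δ a hn k (by omega), Matrix.zero_apply] at h4
    simp only [if_true, comp, Matrix.of_apply] at h4
    exact (mul_eq_zero.1 h4).resolve_left (pow_ne_zero _ (neg_ne_zero.2 hΔ))
  · intro l _ hl
    rw [comp_pow Δ a hn k (by omega), if_neg, zero_mul]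
    exact fun h => hl (Fin.ext h)
  · intro h
    exact absurd (Finset.mem_univ _) h

lemma map_comp' {S : Type*} [CommRing S] (f : R →+* S) {n : ℕ} (Δ : R) (a : Fin n → R) :
    (comp Δ a).map f = comp (f Δ) fun i => f (a i) := by
  ext i j
  simp only [comp, Matrix.map_apply, Matrix.of_apply]
  split_ifs <;> simp

end companion

end Pool.Agent.H446.AP4
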