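import Pool.Agent.H446.AP4.Count
import Pool.Agent.H446.AP4.Curv

/-!
# Connections over differential rings with a parameter
-/

set_option autoImplicit false

namespace Pool.Agent.H446.AP4

open Polynomial Finset TensorProduct Pool.Agent.H446.AP

section general

variable {𝒪 : Type*} [CommRing 𝒪] {ι : Type*} [Fintype ι] [DecidableEq ι]

/-- The derivation `δ ⊗ 1`. -/
noncomputable def dR (δ : Derivation ℤ 𝒪 𝒪) (R : Type*) [CommRing R] : 𝒪 ⊗[ℤ] R →ₗ[ℤ] 𝒪 ⊗[ℤ] R :=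
  LinearMap.rTensor R (δ : 𝒪 →ₗ[ℤ] 𝒪)

/-- The value at `1 ⊗ c`. -/
noncomputable def evT {R : Type*} [CommRing R] (c : R) : 𝒪[X] →+* 𝒪 ⊗[ℤ] R :=
  eval₂RingHom (Algebra.TensorProduct.includeLeftRingHom : 𝒪 →+* 𝒪 ⊗[ℤ] R) (1 ⊗ₜ[ℤ] c)

lemma evT_eq_sum {R : Type*} [CommRing R] (c : R) (F : 𝒪[X]) {N : ℕ} (hN : F.natDegree < N) :
    evT c F = ∑ k ∈ range N, F.coeff k ⊗ₜ[ℤ] (c ^ k) := by
  show eval₂ (Algebra.TensorProduct.includeLeftRingHom : 𝒪 →+* 𝒪 ⊗[ℤ] R) (1 ⊗ₜ[ℤ] c) F = _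
  rw [eval₂_eq_sum_range' _ hN]
  refine Finset.sum_congr rfl fun k _ => ?_
  rw [Algebra.TensorProduct.includeLeftRingHom_apply, Algebra.TensorProduct.tmul_pow, one_pow,
    Algebra.TensorProduct.tmul_mul_tmul, mul_one, one_mul]

lemma evT_C {R : Type*} [CommRing R] (c : R) (f : 𝒪) : evT c (C f) = f ⊗ₜ[ℤ] (1 : R) := by
  show eval₂ (Algebra.TensorProduct.includeLeftRingHom : 𝒪 →+* 𝒪 ⊗[ℤ] R) (1 ⊗ₜ[ℤ] c) (C f) = _
  rw [eval₂_C, Algebra.TensorProduct.includeLeftRingHom_apply]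

lemma natDegree_mapc_lt' {R S : Type*} [CommRing R] [CommRing S] {φ : R → S} (hφ : φ 0 = 0) (F : R[X]) {N : ℕ}
    (hN : F.natDegree < N) : (mapc φ F).natDegree < N := by
  refine lt_of_le_of_lt ?_ hN
  rw [natDegree_le_iff_coeff_eq_zero]
  intro k hk
  rw [coeff_mapc hφ, coeff_eq_zero_of_natDegree_lt hk, hφ]

lemma evT_mapc (δ : Derivation ℤ 𝒪 𝒪) {R : Type*} [CommRing R] (c : R) (F : 𝒪[X]) :
    evT c (mapc (⇑δ) F) = dR δ R (evT c F) := by
  have h0 : δ 0 = 0 := map_zero δ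
  rw [evT_eq_sum c F (Nat.lt_succ_self _), evT_eq_sum c _ (natDegree_mapc_lt' h0 F (Nat.lt_succ_self _)), map_sum]
  refine Finset.sum_congr rfl fun k _ => ?_
  rw [coeff_mapc h0]
  rfl

/-- The curvature matrix of the generic member. -/
noncomputable def genC (δ : Derivation ℤ 𝒪 𝒪) (A : Matrix ι ι 𝒪[X]) (m : ℕ) : Matrix ι ι 𝒪[X] :=
  curv (mapc ⇑δ) (C 1) A m

/-- The connection `δ + A(c)`. -/
noncomputable def nab (δ : Derivation ℤ 𝒪 𝒪) (A : Matrix ι ι 𝒪[X]) {R : Type*} [CommRing R] (c : R)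
    (v : ι → 𝒪 ⊗[ℤ] R) : ι → 𝒪 ⊗[ℤ] R :=
  fun i => dR δ R (v i) + ∑ j, evT c (A i j) * v j

lemma nab_iterate (δ : Derivation ℤ 𝒪 𝒪) (A : Matrix ι ι 𝒪[X]) {R : Type*} [CommRing R] (c : R) (m : ℕ) (j : ι) :
    (nab δ A c)^[m] (Pi.single j 1) = fun i => evT c (genC δ A m i j) := by
  induction m with
  | zero =>
    funext i
    show (Pi.single j 1 : ι → 𝒪 ⊗[ℤ] R) i = evT c ((1 : Matrix ι ι 𝒪[X]) i j)
    rw [Pi.single_apply, Matrix.one_apply]
    split_ifs <;> simp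
  | succ m ih =>
    rw [Function.iterate_succ_apply', ih]
    funext i
    show dR δ R (evT c (genC δ A m i j)) + ∑ l, evT c (A i l) * evT c (genC δ A m l j) =
      evT c (C 1 * mapc (⇑δ) (genC δ A m i j) - (m : 𝒪[X]) * mapc (⇑δ) (C 1) * genC δ A m i j +
        (A * genC δ A m) i j)
    have h0 : δ 0 = 0 := map_zero δ
    have h1 : mapc (⇑δ) (C (1 : 𝒪)) = 0 := by
      ext k
      rw [coeff_mapc h0, coeff_C, coeff_zero]
      split_ifs
      · exact δ.map_one_eq_zero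
      · exact h0
    rw [h1, mul_zero, zero_mul, sub_zero, C_1, one_mul, map_add, evT_mapc, Matrix.mul_apply, map_sum]
    congr 1
    exact Finset.sum_congr rfl fun l _ => (map_mul _ _ _).symm

/-! ### Functionals -/

/-- The map `f ⊗ z ↦ λ(f) z`. -/
noncomputable def Phi (p : ℕ) (lam : 𝒪 →ₗ[ℤ] ZMod p) (R : Type*) [CommRing R] [CharP R p] :
    𝒪 ⊗[ℤ] R →ₗ[ℤ] R :=
  TensorProduct.lift (LinearMap.mk₂ ℤ (fun f z => ZMod.castHom (dvd_refl p) R (lam f) * z)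
    (fun a b z => by rw [map_add, map_add, add_mul])
    (fun n a z => by rw [map_zsmul, map_zsmul, smul_mul_assoc])
    (fun a z w => by rw [mul_add])
    (fun n a z => by rw [mul_smul_comm]))

lemma Phi_tmul (p : ℕ) (lam : 𝒪 →ₗ[ℤ] ZMod p) (R : Type*) [CommRing R] [CharP R p] (f : 𝒪) (z : R) :
    Phi p lam R (f ⊗ₜ[ℤ] z) = ZMod.castHom (dvd_refl p) R (lam f) * z := rfl

/-- The functional applied to the coefficients, lifted to the integers in `[0, p)`. -/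
noncomputable def low (p : ℕ) (lam : 𝒪 →ₗ[ℤ] ZMod p) (F : 𝒪[X]) : ℤ[X] := mapc (fun f => ((lam f).val : ℤ)) F

lemma low_coeff (p : ℕ) (lam : 𝒪 →ₗ[ℤ] ZMod p) (F : 𝒪[X]) (k : ℕ) :
    (low p lam F).coeff k = ((lam (F.coeff k)).val : ℤ) := by
  have h0 : (fun f : 𝒪 => ((lam f).val : ℤ)) 0 = 0 := by
    simp
  exact coeff_mapc h0 F k

lemma Phi_evT (p : ℕ) [NeZero p] (lam : 𝒪 →ₗ[ℤ] ZMod p) {R : Type*} [CommRing R] [CharP R p] (c : R) (F : 𝒪[X]) :
    Phi p lam R (evT c F) = eval₂ (Int.castRingHom R) c (low p lam F) := by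
  have h0 : (fun f : 𝒪 => ((lam f).val : ℤ)) 0 = 0 := by
    simp
  rw [evT_eq_sum c F (Nat.lt_succ_self _), eval₂_eq_sum_range' _
    (show (low p lam F).natDegree < F.natDegree + 1 from natDegree_mapc_lt' h0 F (Nat.lt_succ_self _)), map_sum]
  refine Finset.sum_congr rfl fun k _ => ?_
  rw [Phi_tmul, low_coeff, eq_intCast, Int.cast_natCast]
  congr 1
  rw [ZMod.castHom_apply, ZMod.natCast_val]

lemma sep' {p : ℕ} [Fact p.Prime] {V : Type*} [AddCommGroup V] [Module (ZMod p) V] (f : V) (hf : f ≠ 0) :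
    ∃ lam : V →+ ZMod p, lam f ≠ 0 := by
  obtain ⟨φ, hφ⟩ : ∃ φ : V →ₗ[ZMod p] ZMod p, φ f ≠ 0 := by
    by_contra hcon
    push Not at hcon
    exact hf ((Module.forall_dual_apply_eq_zero_iff (ZMod p) _).1 hcon)
  exact ⟨φ.toAddMonoidHom, hφ⟩

lemma sep {p : ℕ} [Fact p.Prime] {V : Type*} [AddCommGroup V] (hV : ∀ x : V, p • x = 0) (f : V) (hf : f ≠ 0) :
    ∃ lam : V →+ ZMod p, lam f ≠ 0 :=
  @sep' p _ V _ (AddCommGroup.zmodModule hV) f hf

/-- An element which is not divisible by `p` is not killed by some functional. -/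
lemma exists_functional {p : ℕ} [Fact p.Prime] {f : 𝒪} (hf : ¬ ∃ g, f = (p : 𝒪) * g) :
    ∃ lam : 𝒪 →ₗ[ℤ] ZMod p, lam f ≠ 0 := by
  let I : Ideal 𝒪 := Ideal.span {(p : 𝒪)}
  have hne : Ideal.Quotient.mk I f ≠ 0 := by
    intro h
    rw [Ideal.Quotient.eq_zero_iff_mem, Ideal.mem_span_singleton] at h
    exact hf h
  have hch : (p : 𝒪 ⧸ I) = 0 := by
    have h1 : Ideal.Quotient.mk I (p : 𝒪) = 0 := by
      rw [Ideal.Quotient.eq_zero_iff_mem]
      exact Ideal.mem_span_singleton_self _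
    rwa [map_natCast] at h1
  obtain ⟨φ, hφ⟩ := sep (p := p) (V := 𝒪 ⧸ I) (fun x => by rw [nsmul_eq_mul, hch, zero_mul]) _ hne
  exact ⟨(φ.comp (Ideal.Quotient.mk I).toAddMonoidHom).toIntLinearMap, hφ⟩

/-! ### The ring of the `p`-integral algebraic numbers modulo `p` -/

/-- The `p`-integral algebraic numbers modulo `p`. -/
abbrev Kap (p : ℕ) [Fact p.Prime] : Type := pInt p ⧸ Ideal.span {((p : ℕ) : pInt p)}

lemma mk_eq_zero_iff {p : ℕ} [Fact p.Prime] (z : pInt p) :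
    (Ideal.Quotient.mk (Ideal.span {((p : ℕ) : pInt p)}) z = 0) ↔ ∃ y ∈ pInt p, (z : ℂ) = p * y := by
  rw [Ideal.Quotient.eq_zero_iff_mem, Ideal.mem_span_singleton]
  constructor
  · rintro ⟨y, hy⟩
    refine ⟨y, y.2, ?_⟩
    rw [hy]
    push_cast
    rfl
  · rintro ⟨y, hy, h⟩
    refine ⟨⟨y, hy⟩, ?_⟩
    ext
    rw [h]
    push_cast
    rfl

instance charP_kap (p : ℕ) [hp : Fact p.Prime] : CharP (Kap p) p := by
  refine ⟨fun n => ?_⟩
  have h1 : ((n : ℕ) : Kap p) = Ideal.Quotient.mk (Ideal.span {((p : ℕ) : pInt p)}) ((n : ℕ) : pInt p) :=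
    (map_natCast _ n).symm
  rw [h1, mk_eq_zero_iff]
  constructor
  · rintro ⟨y, hy, h⟩
    have h2 : ((n : ℤ) : ℂ) = (p : ℂ) ^ 1 * y := by
      rw [pow_one, ← h]
      push_cast
      rfl
    have h3 := pow_dvd_of_mem hy h2
    rw [pow_one] at h3
    exact Int.natCast_dvd_natCast.1 h3
  · rintro ⟨m, rfl⟩
    refine ⟨m, natCast_mem _ _, ?_⟩
    push_cast
    rfl

/-! ### Good primes -/

/-- The powers `∇ ^ m` of the connection kill the basis vectors. -/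
def FlatC (δ : Derivation ℤ 𝒪 𝒪) (A : Matrix ι ι 𝒪[X]) {R : Type*} [CommRing R] (c : R) (m : ℕ) : Prop :=
  ∀ j, (nab δ A c)^[m] (Pi.single j 1) = 0

lemma flatC_iff (δ : Derivation ℤ 𝒪 𝒪) (A : Matrix ι ι 𝒪[X]) {R : Type*} [CommRing R] (c : R) (m : ℕ) :
    FlatC δ A c m ↔ ∀ i j, evT c (genC δ A m i j) = 0 := by
  unfold FlatC
  constructor
  · intro h i j
    have h1 := congrFun (h j) i
    rw [nab_iterate] at h1
    exact h1
  · intro h j
    rw [nab_iterate]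
    funext i
    exact h i j

/-- `p` is good. -/
def GoodC (δ : Derivation ℤ 𝒪 𝒪) (A : Matrix ι ι 𝒪[X]) (p : ℕ) (P : ℤ[X]) : Prop :=
  ∃ _ : Fact p.Prime, ¬ (p : ℤ) ∣ P.leadingCoeff ∧ ∀ ω : pInt p, aeval (ω : ℂ) P = 0 →
    FlatC δ A (Ideal.Quotient.mk (Ideal.span {((p : ℕ) : pInt p)}) ω) p

/-- Some member over a field of characteristic `p` is not flat. -/
def RegC (δ : Derivation ℤ 𝒪 𝒪) (A : Matrix ι ι 𝒪[X]) (p : ℕ) : Prop :=
  ∃ (K : Type) (_ : Field K) (_ : CharP K p) (c : K), ¬ FlatC δ A c p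

lemma evT_eq_zero_of_dvd {p : ℕ} {R : Type*} [CommRing R] [CharP R p] (c : R) {F : 𝒪[X]}
    (h : ∀ k, ∃ g, F.coeff k = (p : 𝒪) * g) : evT c F = 0 := by
  rw [evT_eq_sum c F (Nat.lt_succ_self _)]
  refine Finset.sum_eq_zero fun k _ => ?_
  obtain ⟨g, hg⟩ := h k
  rw [hg, ← nsmul_eq_mul, ← natCast_zsmul, TensorProduct.smul_tmul, natCast_zsmul, nsmul_eq_mul,
    CharP.cast_eq_zero, zero_mul, TensorProduct.tmul_zero]

theorem testC_of_regular {κ W : ℝ} (hκ : 0 ≤ κ) (δ : Derivation ℤ 𝒪 𝒪) (A : Matrix ι ι 𝒪[X]) (w : ι → ℝ)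
    (hw : ∀ i, 0 ≤ w i ∧ w i ≤ W) (hA : ∀ i j, Sup (κ * (1 + w i - w j)) (A i j)) {p : ℕ} (hp : p.Prime)
    (hreg : RegC δ A p) : Test κ W (GoodC δ A) p := by
  classical
  have hfact : Fact p.Prime := ⟨hp⟩
  obtain ⟨K, _, _, c, hne⟩ := hreg
  rw [flatC_iff] at hne
  push Not at hne
  obtain ⟨i, j, hij⟩ := hne
  obtain ⟨k₀, hk₀⟩ : ∃ k, ¬ ∃ g, (genC δ A p i j).coeff k = (p : 𝒪) * g := by
    by_contra hcon
    push Not at hcon
    exact hij (evT_eq_zero_of_dvd c hcon)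
  obtain ⟨lam, hlam⟩ := exists_functional hk₀
  set F := genC δ A p i j with hF
  set B := low p lam F with hB
  have hBk₀ : B.coeff k₀ ≠ 0 := by
    rw [hB, low_coeff]
    intro h
    apply hlam
    have h1 : (lam (F.coeff k₀)).val = 0 := by exact_mod_cast h
    exact (ZMod.val_eq_zero _).1 h1
  have hB0 : B ≠ 0 := by
    intro h
    rw [h, coeff_zero] at hBk₀
    exact hBk₀ rfl
  refine ⟨hfact, B, ?_, ?_, ?_⟩
  · intro h
    rw [leadingCoeff, hB, low_coeff, Int.natCast_dvd_natCast] at h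
    have h1 : (lam (F.coeff (low p lam F).natDegree)).val = 0 := Nat.eq_zero_of_dvd_of_lt h (ZMod.val_lt _)
    have h2 := leadingCoeff_ne_zero.2 hB0
    rw [leadingCoeff, hB, low_coeff, h1] at h2
    exact h2 rfl
  · have h2 := leadingCoeff_ne_zero.2 hB0
    rw [leadingCoeff, hB, low_coeff, ← hB] at h2
    have h0 : δ 0 = 0 := map_zero δ
    have h3 : F.coeff B.natDegree ≠ 0 := by
      intro h
      rw [h, map_zero] at h2
      simp at h2
    have hS : Sup (0 : ℝ) (C 1 : 𝒪[X]) := sup_C 1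
    have h4 := curv_sup h0 (δ₀ := 0) hκ hS A w (fun i j => by
      rw [zero_add]
      exact hA i j) p i j B.natDegree h3
    rw [zero_mul, zero_add] at h4
    refine h4.trans (mul_le_mul_of_nonneg_left ?_ hκ)
    have h5 := (hw i).2
    have h6 := (hw j).1
    linarith
  · rintro P _ ⟨_, hlc, hG⟩
    refine ⟨hlc, fun z hz => ?_⟩
    have hzp : z ∈ pInt p := root_mem_pInt hlc hz
    have h1 := (flatC_iff _ _ _ _).1 (hG ⟨z, hzp⟩ hz) i j
    have h2 := Phi_evT p lam (Ideal.Quotient.mk (Ideal.span {((p : ℕ) : pInt p)}) ⟨z, hzp⟩) F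
    rw [← hF] at h1
    rw [h1, LinearMap.map_zero, ← hB] at h2
    have h3 : eval₂ (Int.castRingHom (Kap p)) (Ideal.Quotient.mk (Ideal.span {((p : ℕ) : pInt p)}) ⟨z, hzp⟩) B =
        Ideal.Quotient.mk (Ideal.span {((p : ℕ) : pInt p)}) (eval₂ (Int.castRingHom (pInt p)) ⟨z, hzp⟩ B) := by
      rw [hom_eval₂]
      congr 1
    rw [h3] at h2
    obtain ⟨y, hy, h4⟩ := (mk_eq_zero_iff _).1 h2.symm
    refine ⟨y, hy, ?_⟩
    rw [← h4]
    have h5 : ((eval₂ (Int.castRingHom (pInt p)) ⟨z, hzp⟩ B : pInt p) : ℂ) =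
        (pInt p).subtype (eval₂ (Int.castRingHom (pInt p)) ⟨z, hzp⟩ B) := rfl
    rw [h5, hom_eval₂, aeval_def]
    congr 1

/-- If the matrix of the coefficients of the largest degree is not nilpotent modulo `p`, then the family is regular. -/
theorem regularC_of_top {κ : ℝ} (hκ : 0 < κ) (δ : Derivation ℤ 𝒪 𝒪) (A : Matrix ι ι 𝒪[X]) (w : ι → ℝ)
    (hA : ∀ i j, Sup (κ * (1 + w i - w j)) (A i j)) {p : ℕ} [hp : Fact p.Prime]
    (h : ¬ IsNilpotent ((Matrix.of fun i j => topc (κ * (1 + w i - w j)) (A i j)).map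
      (Ideal.Quotient.mk (Ideal.span {(p : 𝒪)})))) : RegC δ A p := by
  classical
  have h0 : δ 0 = 0 := map_zero δ
  have hS : Sup (0 : ℝ) (C 1 : 𝒪[X]) := sup_C 1
  have htop := curv_top h0 (δ₀ := 0) hκ hS A w (fun i j => by
      rw [zero_add]
      exact hA i j) p
  simp only [zero_add, zero_mul] at htop
  obtain ⟨i, j, hij⟩ : ∃ i j, ¬ ∃ g, ((Matrix.of fun i j => topc (κ * (1 + w i - w j)) (A i j)) ^ p) i j =
      (p : 𝒪) * g := by
    by_contra hcon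
    push Not at hcon
    apply h
    refine ⟨p, ?_⟩
    have h3 : ((Matrix.of fun i j => topc (κ * (1 + w i - w j)) (A i j)).map
        (Ideal.Quotient.mk (Ideal.span {(p : 𝒪)}))) ^ p =
        ((Matrix.of fun i j => topc (κ * (1 + w i - w j)) (A i j)) ^ p).map
          (Ideal.Quotient.mk (Ideal.span {(p : 𝒪)})) :=
      (map_pow (RingHom.mapMatrix (Ideal.Quotient.mk (Ideal.span {(p : 𝒪)}))) _ p).symm
    rw [h3]
    refine Matrix.ext fun i j => ?_
    rw [Matrix.map_apply, Matrix.zero_apply, Ideal.Quotient.eq_zero_iff_mem, Ideal.mem_span_singleton]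
    exact hcon i j
  rw [← htop i j] at hij
  have hne : topc (κ * (p + w i - w j)) (genC δ A p i j) ≠ 0 := fun h1 => hij ⟨0, by
    rw [mul_zero]
    exact h1⟩
  obtain ⟨k, hk, hkF⟩ := topc_ne_zero hne
  have hij' : ¬ ∃ g, (genC δ A p i j).coeff k = (p : 𝒪) * g := by
    rw [← hkF]
    exact hij
  obtain ⟨lam, hlam⟩ := exists_functional hij'
  refine ⟨RatFunc (ZMod p), inferInstance, inferInstance, RatFunc.X, fun hflat => ?_⟩
  have h1 := (flatC_iff _ _ _ _).1 hflat i j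
  have h2 := Phi_evT p lam (RatFunc.X : RatFunc (ZMod p)) (genC δ A p i j)
  rw [h1, map_zero] at h2
  have h4 : eval₂ (Int.castRingHom (RatFunc (ZMod p))) (RatFunc.X : RatFunc (ZMod p)) (low p lam (genC δ A p i j)) =
      algebraMap (ZMod p)[X] (RatFunc (ZMod p)) ((low p lam (genC δ A p i j)).map (Int.castRingHom (ZMod p))) := by
    rw [← RatFunc.algebraMap_X, eval₂_eq_sum_range]
    conv_rhs => rw [as_sum_range' (Polynomial.map _ _) _ (Nat.lt_succ_of_le natDegree_map_le), map_sum]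
    refine Finset.sum_congr rfl fun k _ => ?_
    rw [← C_mul_X_pow_eq_monomial, map_mul, map_pow, coeff_map, eq_intCast, eq_intCast]
    simp
  rw [h4] at h2
  have h5 := (map_eq_zero_iff _ (IsFractionRing.injective (ZMod p)[X] (RatFunc (ZMod p)))).1 h2.symm
  have h6 := congrArg (fun q => q.coeff k) h5
  simp only [coeff_map, low_coeff, coeff_zero, eq_intCast, Int.cast_natCast] at h6
  rw [ZMod.natCast_val, ZMod.cast_id] at h6
  exact hlam h6

end general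

end Pool.Agent.H446.AP4
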