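import Pool.Agent.H446.AP4.Count
import Pool.Agent.H446.AP4.Curv

/-!
# Differential operators over `ℤ[x]` with a parameter
-/

set_option autoImplicit false

namespace Pool.Agent.H446.AP4

open Polynomial Finset Pool.Agent.H446.AP

/-! ### Specialization of the parameter -/

section ev

variable {K : Type*} [CommRing K]

/-- Specialize the parameter. -/
noncomputable def ev (c : K) : ℤ[X][X] →+* K[X] := eval₂RingHom (mapRingHom (Int.castRingHom K)) (C c)

lemma ev_eq_sum (c : K) (F : ℤ[X][X]) {N : ℕ} (hN : F.natDegree < N) :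
    ev c F = ∑ k ∈ range N, (F.coeff k).map (Int.castRingHom K) * C (c ^ k) := by
  show eval₂ (mapRingHom (Int.castRingHom K)) (C c) F = _
  rw [eval₂_eq_sum_range' _ hN]
  refine Finset.sum_congr rfl fun k _ => ?_
  rw [coe_mapRingHom, C_pow]

lemma natDegree_mapc_lt {R S : Type*} [CommRing R] [CommRing S] {φ : R → S} (hφ : φ 0 = 0) (F : R[X]) {N : ℕ}
    (hN : F.natDegree < N) : (mapc φ F).natDegree < N := by
  refine lt_of_le_of_lt ?_ hN
  rw [natDegree_le_iff_coeff_eq_zero]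
  intro k hk
  rw [coeff_mapc hφ, coeff_eq_zero_of_natDegree_lt hk, hφ]

lemma ev_mapc (c : K) (F : ℤ[X][X]) :
    ev c (mapc (fun f : ℤ[X] => derivative f) F) = derivative (ev c F) := by
  have h0 : (fun f : ℤ[X] => derivative f) 0 = 0 := derivative_zero
  rw [ev_eq_sum c F (Nat.lt_succ_self _), ev_eq_sum c _ (natDegree_mapc_lt h0 F (Nat.lt_succ_self _)),
    derivative_sum]
  refine Finset.sum_congr rfl fun k _ => ?_
  rw [coeff_mapc h0, derivative_mul, derivative_C, mul_zero, add_zero, derivative_map]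

lemma coeff_ev (c : K) (F : ℤ[X][X]) (l : ℕ) :
    (ev c F).coeff l = eval₂ (Int.castRingHom K) c (mapc (fun f : ℤ[X] => f.coeff l) F) := by
  have h0 : (fun f : ℤ[X] => f.coeff l) 0 = 0 := coeff_zero l
  rw [ev_eq_sum c F (Nat.lt_succ_self _), eval₂_eq_sum_range' _ (natDegree_mapc_lt h0 F (Nat.lt_succ_self _)),
    finsetSum_coeff]
  refine Finset.sum_congr rfl fun k _ => ?_
  rw [coeff_mapc h0, coeff_mul_C, coeff_map]

/-- The matrix of the `m`-th curvature of the generic member. -/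
noncomputable def gen {n : ℕ} (Δ : ℤ[X][X]) (a : Fin n → ℤ[X][X]) (m : ℕ) : Matrix (Fin n) (Fin n) ℤ[X][X] :=
  curv (mapc fun f : ℤ[X] => derivative f) Δ (comp Δ a) m

lemma ev_gen (c : K) {n : ℕ} (Δ : ℤ[X][X]) (a : Fin n → ℤ[X][X]) (m : ℕ) :
    (gen Δ a m).map (ev c) =
      curv (fun f : K[X] => derivative f) (ev c Δ) (comp (ev c Δ) fun i => ev c (a i)) m := by
  unfold gen
  rw [map_curv (ev c) (fun r => ev_mapc c r), map_comp']

end ev

/-! ### Truncation -/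

/-- A polynomial which is not zero modulo `p` can be changed by a multiple of `p` such that its leading coefficient is
prime to `p`. -/
lemma trunc {p : ℕ} [hp : Fact p.Prime] {b : ℤ[X]} (hb : b.map (Int.castRingHom (ZMod p)) ≠ 0) :
    ∃ B : ℤ[X], ¬ (p : ℤ) ∣ B.leadingCoeff ∧ B.natDegree ≤ b.natDegree ∧
      ∀ z ∈ pInt p, (∃ y ∈ pInt p, aeval z b = p * y) → ∃ y ∈ pInt p, aeval z B = p * y := by
  obtain ⟨B, hB, hdeg⟩ := exists_degree_eq_of_mem_lifts
    (Polynomial.map_surjective (Int.castRingHom (ZMod p)) (ZMod.ringHom_surjective _) (b.map (Int.castRingHom (ZMod p))))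
  have hnd : B.natDegree = (b.map (Int.castRingHom (ZMod p))).natDegree := natDegree_eq_natDegree hdeg
  refine ⟨B, ?_, ?_, ?_⟩
  · intro h
    have h1 : (b.map (Int.castRingHom (ZMod p))).leadingCoeff = 0 := by
      rw [leadingCoeff, ← hnd, ← hB, coeff_map, eq_intCast]
      exact (ZMod.intCast_zmod_eq_zero_iff_dvd _ _).2 h
    exact hb (leadingCoeff_eq_zero.1 h1)
  · rw [hnd]
    exact natDegree_map_le
  · rintro z hz ⟨y, hy, hby⟩
    have h1 : C (p : ℤ) ∣ b - B := by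
      rw [C_dvd_iff_dvd_coeff]
      intro i
      rw [← ZMod.intCast_zmod_eq_zero_iff_dvd, coeff_sub, Int.cast_sub, sub_eq_zero]
      have h2 := congrArg (fun q => q.coeff i) hB
      simp only [coeff_map, eq_intCast] at h2
      exact h2.symm
    obtain ⟨r, hr⟩ := h1
    have h2 : aeval z B = p * (y - aeval z r) := by
      have h3 : aeval z b - aeval z B = p * aeval z r := by
        rw [← map_sub, hr, map_mul, aeval_C]
        simp
      rw [hby] at h3
      linear_combination -h3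
    refine ⟨_, (pInt p).sub_mem hy ?_, h2⟩
    rw [aeval_eq_sum_range]
    refine (pInt p).sum_mem fun i _ => ?_
    rw [zsmul_eq_mul]
    exact (pInt p).mul_mem (intCast_mem _ _) ((pInt p).pow_mem hz _)

/-! ### Good primes -/

/-- `p` is good: the coefficients of the entries of the matrix of the curvature are divisible by `p`. -/
def GoodP {n : ℕ} (Δ : ℤ[X][X]) (a : Fin n → ℤ[X][X]) (p : ℕ) (P : ℤ[X]) : Prop :=
  ¬ (p : ℤ) ∣ P.leadingCoeff ∧ ∀ ω : ℂ, aeval ω P = 0 → ∀ i j l, ∃ s : ℤ, ¬ (p : ℤ) ∣ s ∧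
    IsIntegral ℤ ((s : ℂ) * ((curv (fun f : ℂ[X] => derivative f) (ev ω Δ)
      (comp (ev ω Δ) fun i => ev ω (a i)) p i j).coeff l / p))

/-- The degrees in the parameter. -/
def DegP {n : ℕ} (δ₀ θ : ℝ) (Δ : ℤ[X][X]) (a : Fin n → ℤ[X][X]) : Prop :=
  (∀ k, Δ.coeff k ≠ 0 → (k : ℝ) ≤ δ₀) ∧ ∀ i k, (a i).coeff k ≠ 0 → (k : ℝ) ≤ δ₀ + θ * (n - i)

/-- The curvature of some member over a field of characteristic `p` is not zero. -/
def RegP {n : ℕ} (Δ : ℤ[X][X]) (a : Fin n → ℤ[X][X]) (p : ℕ) : Prop :=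
  ∃ (K : Type) (_ : Field K) (_ : CharP K p) (c : K),
    curv (fun f : K[X] => derivative f) (ev c Δ) (comp (ev c Δ) fun i => ev c (a i)) p ≠ 0

lemma hB_comp {n : ℕ} {δ₀ θ : ℝ} {Δ : ℤ[X][X]} {a : Fin n → ℤ[X][X]} (h : DegP δ₀ θ Δ a) (i j : Fin n) :
    Sup (δ₀ + θ * (1 + ((i : ℕ) : ℝ) - ((j : ℕ) : ℝ))) (comp Δ a i j) := by
  simp only [comp, Matrix.of_apply]
  split_ifs with h1 h2
  · intro k hk
    have h3 := h.2 j k hk
    have h4 : ((i : ℕ) : ℝ) + 1 = n := by exact_mod_cast h1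
    have h5 : 1 + ((i : ℕ) : ℝ) - ((j : ℕ) : ℝ) = n - ((j : ℕ) : ℝ) := by linarith
    rw [h5]
    exact h3
  · have h3 : ((j : ℕ) : ℝ) = (i : ℕ) + 1 := by exact_mod_cast h2
    have h4 : Sup δ₀ Δ := h.1
    refine h4.neg.mono ?_
    rw [h3]
    have : 1 + ((i : ℕ) : ℝ) - ((i : ℕ) + 1) = 0 := by ring
    rw [this, mul_zero, add_zero]
  · exact sup_zero _

lemma natDegree_gen_le {n : ℕ} {δ₀ θ : ℝ} (hδ₀ : 0 ≤ δ₀) (hθ : 0 ≤ θ) {Δ : ℤ[X][X]} {a : Fin n → ℤ[X][X]}
    (h : DegP δ₀ θ Δ a) (m : ℕ) (i j : Fin n) (k : ℕ) (hk : (gen Δ a m i j).coeff k ≠ 0) :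
    (k : ℝ) ≤ (δ₀ + θ) * (m + (n - 1)) := by
  have h0 : (fun f : ℤ[X] => derivative f) 0 = 0 := derivative_zero
  have h1 := curv_sup h0 hθ (w := fun i : Fin n => ((i : ℕ) : ℝ)) h.1 (comp Δ a) (hB_comp h) m i j k hk
  refine h1.trans ?_
  have h2 : ((i : ℕ) : ℝ) + 1 ≤ n := by exact_mod_cast i.2
  have h3 : (0 : ℝ) ≤ ((j : ℕ) : ℝ) := Nat.cast_nonneg _
  have h4 : (0 : ℝ) ≤ ((i : ℕ) : ℝ) := Nat.cast_nonneg _
  have h5 : θ * (m + ((i : ℕ) : ℝ) - ((j : ℕ) : ℝ)) ≤ θ * (m + (n - 1)) :=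
    mul_le_mul_of_nonneg_left (by linarith) hθ
  have h6 : 0 ≤ δ₀ * (n - 1) := mul_nonneg hδ₀ (by linarith)
  nlinarith

theorem test_of_regular {n : ℕ} {δ₀ θ : ℝ} (hδ₀ : 0 ≤ δ₀) (hθ : 0 ≤ θ) {Δ : ℤ[X][X]} {a : Fin n → ℤ[X][X]}
    (ha : DegP δ₀ θ Δ a) {p : ℕ} (hp : p.Prime) (hreg : RegP Δ a p) : Test (δ₀ + θ) (n - 1) (GoodP Δ a) p := by
  classical
  have hfact : Fact p.Prime := ⟨hp⟩
  obtain ⟨K, _, _, c, hne⟩ := hreg
  obtain ⟨i, j, hij⟩ : ∃ i j, curv (fun f : K[X] => derivative f) (ev c Δ) (comp (ev c Δ) fun i => ev c (a i)) p i j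
      ≠ 0 := by
    by_contra hcon
    push Not at hcon
    exact hne (Matrix.ext hcon)
  obtain ⟨l, hl⟩ : ∃ l, (curv (fun f : K[X] => derivative f) (ev c Δ)
      (comp (ev c Δ) fun i => ev c (a i)) p i j).coeff l ≠ 0 := by
    by_contra hcon
    push Not at hcon
    exact hij (Polynomial.ext hcon)
  have hl0 : (fun f : ℤ[X] => f.coeff l) 0 = 0 := coeff_zero l
  set b := mapc (fun f : ℤ[X] => f.coeff l) (gen Δ a p i j) with hb
  have hval : ∀ {K : Type} [Field K] (c : K), (curv (fun f : K[X] => derivative f) (ev c Δ)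
      (comp (ev c Δ) fun i => ev c (a i)) p i j).coeff l = eval₂ (Int.castRingHom K) c b := by
    intro K _ c
    rw [← ev_gen, Matrix.map_apply, coeff_ev]
  have hbp : b.map (Int.castRingHom (ZMod p)) ≠ 0 := by
    intro h
    apply hl
    rw [hval c]
    have h1 : C (p : ℤ) ∣ b := by
      rw [C_dvd_iff_dvd_coeff]
      intro i
      rw [← ZMod.intCast_zmod_eq_zero_iff_dvd]
      have h2 := congrArg (fun q => q.coeff i) h
      simpa only [coeff_map, eq_intCast, coeff_zero] using h2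
    obtain ⟨r, hr⟩ := h1
    rw [hr, eval₂_mul, eval₂_C]
    simp
  obtain ⟨B, hB1, hB2, hB3⟩ := trunc hbp
  refine ⟨hfact, B, hB1, ?_, ?_⟩
  · have h1 : (b.natDegree : ℝ) ≤ (δ₀ + θ) * (p + (n - 1)) := by
      have hb0 : b ≠ 0 := by
        intro h
        rw [h, Polynomial.map_zero] at hbp
        exact hbp rfl
      have h2 : b.coeff b.natDegree ≠ 0 := leadingCoeff_ne_zero.2 hb0
      rw [hb, coeff_mapc hl0, ← hb] at h2
      refine natDegree_gen_le hδ₀ hθ ha p i j _ fun h => h2 ?_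
      show ((gen Δ a p i j).coeff b.natDegree).coeff l = 0
      rw [h, coeff_zero]
    have h2 : (B.natDegree : ℝ) ≤ b.natDegree := by exact_mod_cast hB2
    exact h2.trans h1
  · intro P _ hG
    refine ⟨hG.1, fun z hz => hB3 z (root_mem_pInt hG.1 hz) ?_⟩
    have h1 := hG.2 z hz i j l
    rw [hval z] at h1
    refine ⟨_, h1, ?_⟩
    have hp0 : (p : ℂ) ≠ 0 := by exact_mod_cast hp.ne_zero
    rw [mul_div_cancel₀ _ hp0]
    rfl

/-- If some coefficient has the maximal degree modulo `p`, then the curvature of the generic member is not zero. -/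
theorem regular_of_top {n : ℕ} {δ₀ : ℕ} {θ : ℝ} (hθ : 0 < θ) {Δ : ℤ[X][X]} {a : Fin n → ℤ[X][X]}
    (ha : DegP δ₀ θ Δ a) {p : ℕ} [hp : Fact p.Prime] (hΔ : (Δ.coeff δ₀).map (Int.castRingHom (ZMod p)) ≠ 0)
    (i₀ : Fin n) (k₀ : ℕ) (hk₀ : (k₀ : ℝ) = δ₀ + θ * (n - i₀))
    (hi₀ : ((a i₀).coeff k₀).map (Int.castRingHom (ZMod p)) ≠ 0) : RegP Δ a p := by
  classical
  have h0 : (fun f : ℤ[X] => derivative f) 0 = 0 := derivative_zero
  let w : Fin n → ℝ := fun i => (i : ℕ)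
  have htop := curv_top h0 hθ (w := w) ha.1 (comp Δ a) (hB_comp ha) p
  have hBtop : (Matrix.of fun i j => topc ((δ₀ : ℝ) + θ * (1 + w i - w j)) (comp Δ a i j)) =
      comp (Δ.coeff δ₀) fun j => topc ((δ₀ : ℝ) + θ * (n - j)) (a j) := by
    refine Matrix.ext fun i j => ?_
    simp only [comp, Matrix.of_apply, w]
    split_ifs with h1 h2
    · have h4 : ((i : ℕ) : ℝ) + 1 = n := by exact_mod_cast h1
      have h5 : 1 + ((i : ℕ) : ℝ) - ((j : ℕ) : ℝ) = n - ((j : ℕ) : ℝ) := by linarith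
      rw [h5]
    · have h3 : ((j : ℕ) : ℝ) = (i : ℕ) + 1 := by exact_mod_cast h2
      rw [h3]
      have : (δ₀ : ℝ) + θ * (1 + ((i : ℕ) : ℝ) - ((i : ℕ) + 1)) = δ₀ := by ring
      rw [this, topc_natCast, coeff_neg]
    · rw [topc_zero]
  rw [hBtop] at htop
  obtain ⟨i, j, hij⟩ : ∃ i j, (((comp (Δ.coeff δ₀) fun j => topc ((δ₀ : ℝ) + θ * (n - j)) (a j)) ^ p) i j).map
      (Int.castRingHom (ZMod p)) ≠ 0 := by
    by_contra hcon
    push Not at hcon
    have h1 : (comp (Δ.coeff δ₀) fun j => topc ((δ₀ : ℝ) + θ * (n - j)) (a j)).map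
        (mapRingHom (Int.castRingHom (ZMod p))) = comp ((Δ.coeff δ₀).map (Int.castRingHom (ZMod p)))
          fun j => (topc ((δ₀ : ℝ) + θ * (n - j)) (a j)).map (Int.castRingHom (ZMod p)) :=
      map_comp' _ _ _
    have h2 : IsNilpotent (comp ((Δ.coeff δ₀).map (Int.castRingHom (ZMod p)))
        fun j : Fin n => (topc ((δ₀ : ℝ) + θ * (n - j)) (a j)).map (Int.castRingHom (ZMod p))) := by
      refine ⟨p, ?_⟩
      rw [← h1]
      have h3 : ((comp (Δ.coeff δ₀) fun j => topc ((δ₀ : ℝ) + θ * (n - j)) (a j)).map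
          (mapRingHom (Int.castRingHom (ZMod p)))) ^ p =
          ((comp (Δ.coeff δ₀) fun j => topc ((δ₀ : ℝ) + θ * (n - j)) (a j)) ^ p).map
            (mapRingHom (Int.castRingHom (ZMod p))) :=
        (map_pow (RingHom.mapMatrix (mapRingHom (Int.castRingHom (ZMod p)))) _ p).symm
      rw [h3]
      refine Matrix.ext fun i j => ?_
      exact hcon i j
    have h3 := comp_nilpotent hΔ _ h2 i₀
    rw [← hk₀, topc_natCast] at h3
    exact hi₀ h3
  have hFtop : topc ((δ₀ : ℝ) * p + θ * (p + w i - w j)) (gen Δ a p i j) =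
      ((comp (Δ.coeff δ₀) fun j => topc ((δ₀ : ℝ) + θ * (n - j)) (a j)) ^ p) i j := htop i j
  have hne : topc ((δ₀ : ℝ) * p + θ * (p + w i - w j)) (gen Δ a p i j) ≠ 0 := by
    rw [hFtop]
    intro h
    rw [h, Polynomial.map_zero] at hij
    exact hij rfl
  set F := gen Δ a p i j with hF
  obtain ⟨κ, hκ, hκF⟩ := topc_ne_zero hne
  rw [hFtop] at hκF
  rw [hκF] at hij
  obtain ⟨l, hl⟩ : ∃ l, ¬ (p : ℤ) ∣ (F.coeff κ).coeff l := by
    by_contra hcon
    push Not at hcon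
    apply hij
    ext l
    rw [coeff_map, coeff_zero, eq_intCast]
    exact (ZMod.intCast_zmod_eq_zero_iff_dvd _ _).2 (hcon l)
  have hl0 : (fun f : ℤ[X] => f.coeff l) 0 = 0 := coeff_zero l
  refine ⟨RatFunc (ZMod p), inferInstance, inferInstance, RatFunc.X, fun hzero => ?_⟩
  have h1 := congrFun (congrFun hzero i) j
  rw [← ev_gen, Matrix.map_apply, ← hF, Matrix.zero_apply] at h1
  have h2 := congrArg (fun q => q.coeff l) h1
  simp only [coeff_ev, coeff_zero] at h2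
  have h3 : (mapc (fun f : ℤ[X] => f.coeff l) F).map (Int.castRingHom (ZMod p)) = 0 := by
    have h4 : eval₂ (Int.castRingHom (RatFunc (ZMod p))) (RatFunc.X : RatFunc (ZMod p))
        (mapc (fun f : ℤ[X] => f.coeff l) F) =
        algebraMap (ZMod p)[X] (RatFunc (ZMod p)) ((mapc (fun f : ℤ[X] => f.coeff l) F).map
          (Int.castRingHom (ZMod p))) := by
      rw [← RatFunc.algebraMap_X, eval₂_eq_sum_range]
      conv_rhs => rw [as_sum_range' (Polynomial.map _ _) _ (Nat.lt_succ_of_le natDegree_map_le), map_sum]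
      refine Finset.sum_congr rfl fun k _ => ?_
      rw [← C_mul_X_pow_eq_monomial, map_mul, map_pow, coeff_map, eq_intCast, eq_intCast]
      simp
    exact (map_eq_zero_iff _ (IsFractionRing.injective (ZMod p)[X] (RatFunc (ZMod p)))).1 (h4.symm.trans h2)
  have h4 := congrArg (fun q => q.coeff κ) h3
  have h5 : (mapc (fun f : ℤ[X] => f.coeff l) F).coeff κ = (F.coeff κ).coeff l := coeff_mapc hl0 F κ
  simp only [coeff_map, h5, coeff_zero, eq_intCast] at h4
  exact hl ((ZMod.intCast_zmod_eq_zero_iff_dvd _ _).1 h4)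

end Pool.Agent.H446.AP4
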