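import Pool.Agent.H446.AP4.Vand

/-!
# The core inequality
-/

set_option autoImplicit false

namespace Pool.Agent.H446.AP4

open Polynomial Finset Pool.Agent.H446.AP

/-- A polynomial of degree at most `θ (p + W)`, not zero modulo `p`, whose values at the good orbits are divisible
by `p`. -/
def Test (θ W : ℝ) (G : ℕ → ℤ[X] → Prop) (p : ℕ) : Prop :=
  ∃ (_ : Fact p.Prime) (B : ℤ[X]), ¬ (p : ℤ) ∣ B.leadingCoeff ∧ (B.natDegree : ℝ) ≤ θ * (p + W) ∧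
    ∀ P, Orb P → G p P → ¬ (p : ℤ) ∣ P.leadingCoeff ∧ ∀ z : ℂ, aeval z P = 0 → ∃ y ∈ pInt p, aeval z B = p * y

open Classical in
/-- The total degree of the good orbits. -/
noncomputable def dg (G : ℕ → ℤ[X] → Prop) (S : Finset ℤ[X]) (p : ℕ) : ℕ := ∑ P ∈ S.filter (G p), P.natDegree

lemma dg_le (G : ℕ → ℤ[X] → Prop) (S : Finset ℤ[X]) (p : ℕ) : dg G S p ≤ ∑ P ∈ S, P.natDegree := by
  classical
  exact Finset.sum_le_sum_of_subset (filter_subset _ _)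

lemma not_dvd_lc_pd {p : ℕ} (hp : p.Prime) {S : Finset ℤ[X]} (h : ∀ P ∈ S, ¬ (p : ℤ) ∣ P.leadingCoeff) :
    ¬ (p : ℤ) ∣ (pd S).leadingCoeff := by
  unfold pd
  rw [leadingCoeff_prod]
  intro h1
  obtain ⟨P, hP, hd⟩ := (Prime.dvd_finsetProd_iff (Nat.prime_iff_prime_int.1 hp) _).1 h1
  exact h P hP hd

lemma root_pd {S : Finset ℤ[X]} {z : ℂ} (hz : aeval z (pd S) = 0) : ∃ P ∈ S, aeval z P = 0 := by
  unfold pd at hz
  rw [map_prod] at hz
  exact Finset.prod_eq_zero_iff.1 hz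

lemma prime_bound {θ W : ℝ} (hθ : 0 < θ) (hW : 0 ≤ W) {G : ℕ → ℤ[X] → Prop} {p : ℕ} (hT : Test θ W G p)
    {S : Finset ℤ[X]} (hS : ∀ P ∈ S, Orb P) :
    ∃ r : ℕ, (p : ℤ) ^ r ∣ rd (pd S) ∧ (dg G S p : ℝ) ^ 2 / (θ * (p + W)) - 2 * dg G S p ≤ r := by
  classical
  obtain ⟨hp, B, hB, hBd, hBG⟩ := hT
  have hp0 : (0 : ℝ) < p := by exact_mod_cast hp.out.pos
  have hpos : 0 < θ * (p + W) := by positivity
  rcases (S.filter (G p)).eq_empty_or_nonempty with h | h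
  · refine ⟨0, by simp, ?_⟩
    have : dg G S p = 0 := by
      unfold dg
      rw [h, Finset.sum_empty]
    rw [this]
    simp
  · set T := S.filter (G p) with hTdef
    have hT' : ∀ P ∈ T, Orb P := fun P hP => hS P (mem_filter.1 hP).1
    have hG : ∀ P ∈ T, G p P := fun P hP => (mem_filter.1 hP).2
    have hdT : (pd T).natDegree = dg G S p := natDegree_pd hT'
    have hdpos := natDegree_pd_pos hT' h
    have hval : ∀ z : ℂ, aeval z (pd T) = 0 → ∃ y ∈ pInt p, aeval z B = p * y := by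
      intro z hz
      obtain ⟨P, hP, hzP⟩ := root_pd hz
      exact (hBG P (hT' P hP) (hG P hP)).2 z hzP
    have hlc : ¬ (p : ℤ) ∣ (pd T).leadingCoeff :=
      not_dvd_lc_pd hp.out fun P hP => (hBG P (hT' P hP) (hG P hP)).1
    have hq : 0 < B.natDegree := by
      rcases Nat.eq_zero_or_pos B.natDegree with h0 | h0
      · exfalso
        obtain ⟨z, hz⟩ := IsAlgClosed.exists_aeval_eq_zero ℂ (pd T) (by
          intro h1
          have h2 := natDegree_eq_zero_iff_degree_le_zero.2 h1.le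
          omega)
        obtain ⟨y, hy, hyB⟩ := hval z hz
        obtain ⟨c, hc⟩ := natDegree_eq_zero.1 h0
        rw [← hc, aeval_C, eq_intCast, ← pow_one (p : ℂ)] at hyB
        have h3 := pow_dvd_of_mem hy hyB
        rw [pow_one] at h3
        rw [← hc, leadingCoeff_C] at hB
        exact hB h3
      · exact h0
    refine ⟨2 * vE (pd T).natDegree B.natDegree,
      (pow_dvd_rd hdpos hlc hB hval).trans (rd_pd_dvd hS (filter_subset _ _) h), ?_⟩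
    have h1 := vE_ge (D := (pd T).natDegree) hq
    rw [hdT] at h1 ⊢
    have hq' : (0 : ℝ) < B.natDegree := by exact_mod_cast hq
    have h2 : (dg G S p : ℝ) ^ 2 / (θ * (p + W)) ≤ (dg G S p : ℝ) ^ 2 / B.natDegree :=
      div_le_div_of_nonneg_left (sq_nonneg _) hq' hBd
    have h3 : (dg G S p : ℝ) ^ 2 / B.natDegree = 2 * ((dg G S p : ℝ) ^ 2 / (2 * B.natDegree)) := by
      field_simp
    push_cast
    linarith

/-- **The core inequality**, with the discriminant. -/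
theorem core_disc {θ W : ℝ} (hθ : 0 < θ) (hW : 0 ≤ W) {G : ℕ → ℤ[X] → Prop} (Q : Finset ℕ)
    (hQ : ∀ p ∈ Q, Test θ W G p) {S : Finset ℤ[X]} (hS : ∀ P ∈ S, Orb P) :
    ∑ p ∈ Q, Real.log p * ((dg G S p : ℝ) ^ 2 / (p + W)) ≤
      θ * Real.log |(rd (pd S) : ℝ)| + 2 * θ * ∑ p ∈ Q, Real.log p * dg G S p := by
  classical
  have hex : ∀ p ∈ Q, ∃ r : ℕ, (p : ℤ) ^ r ∣ rd (pd S) ∧
      (dg G S p : ℝ) ^ 2 / (θ * (p + W)) - 2 * dg G S p ≤ r := fun p hp => prime_bound hθ hW (hQ p hp) hS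
  choose! r hr using hex
  have h1 := sum_log_le Q (fun p hp => (hQ p hp).choose.out) r (rd (pd S)) (rd_pd_ne_zero hS)
    fun p hp => (hr p hp).1
  have h3 : ∑ p ∈ Q, Real.log p * ((dg G S p : ℝ) ^ 2 / (θ * (p + W)) - 2 * dg G S p) ≤
      ∑ p ∈ Q, Real.log p * r p :=
    Finset.sum_le_sum fun p hp => mul_le_mul_of_nonneg_left (hr p hp).2 (logp_nonneg p)
  have h4 : ∑ p ∈ Q, Real.log p * ((dg G S p : ℝ) ^ 2 / (θ * (p + W)) - 2 * dg G S p) =
      θ⁻¹ * ∑ p ∈ Q, Real.log p * ((dg G S p : ℝ) ^ 2 / (p + W)) - 2 * ∑ p ∈ Q, Real.log p * dg G S p := by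
    rw [Finset.mul_sum, Finset.mul_sum, ← Finset.sum_sub_distrib]
    refine Finset.sum_congr rfl fun p _ => ?_
    rw [← div_div, div_eq_mul_inv _ θ]
    ring
  rw [h4] at h3
  have h5 := h3.trans h1
  have h6 : θ⁻¹ * ∑ p ∈ Q, Real.log p * ((dg G S p : ℝ) ^ 2 / (p + W)) ≤
      Real.log |(rd (pd S) : ℝ)| + 2 * ∑ p ∈ Q, Real.log p * dg G S p := by linarith
  rw [inv_mul_le_iff₀ hθ] at h6
  linarith

lemma log_rd_pd_le {S : Finset ℤ[X]} (hne : S.Nonempty) {H : ℝ} (hH : 0 ≤ H)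
    (hS : ∀ P ∈ S, Orb P ∧ Real.log (mm P) ≤ P.natDegree * H) {D : ℝ} (hD : D = ∑ P ∈ S, (P.natDegree : ℝ)) :
    Real.log |(rd (pd S) : ℝ)| ≤ 2 * (D ^ 2 * H + D * Real.log D) := by
  have hS' : ∀ P ∈ S, Orb P := fun P hP => (hS P hP).1
  have hF := natDegree_pd_pos hS' hne
  have hDF : ((pd S).natDegree : ℝ) = D := by
    rw [hD, natDegree_pd hS']
    push_cast
    rfl
  have h2 := log_rd_le hF (rd_pd_ne_zero hS') (log_mm_pd hS' fun P hP => (hS P hP).2) hH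
  rw [hDF] at h2
  linarith

/-- **The core inequality.** -/
theorem core {θ W : ℝ} (hθ : 0 < θ) (hW : 0 ≤ W) {G : ℕ → ℤ[X] → Prop} (Q : Finset ℕ)
    (hQ : ∀ p ∈ Q, Test θ W G p) {S : Finset ℤ[X]} (hne : S.Nonempty) {H : ℝ} (hH : 0 ≤ H)
    (hS : ∀ P ∈ S, Orb P ∧ Real.log (mm P) ≤ P.natDegree * H) {D : ℝ} (hD : D = ∑ P ∈ S, (P.natDegree : ℝ)) :
    ∑ p ∈ Q, Real.log p * ((dg G S p : ℝ) ^ 2 / (p + W)) ≤
      2 * θ * (D ^ 2 * H + D * Real.log D + ∑ p ∈ Q, Real.log p * dg G S p) := by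
  have h1 := core_disc hθ hW Q hQ fun P hP => (hS P hP).1
  have h2 := mul_le_mul_of_nonneg_left (log_rd_pd_le hne hH hS hD) hθ.le
  linarith

end Pool.Agent.H446.AP4
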