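import Pool.Agent.H446.AP4.CoreI
import Pool.Agent.H446.AP2.Count

/-!
# Algebraic numbers with few bad primes
-/

set_option autoImplicit false
set_option maxHeartbeats 1000000

namespace Pool.Agent.H446.AP4

open Polynomial Finset Pool.Agent.H446.AP Pool.Agent.H446.AP2

open Classical in
/-- The sum of `log p / p` over the bad primes in `(y, x]`. -/
noncomputable def badS (G : ℕ → ℤ[X] → Prop) (y x : ℝ) (P : ℤ[X]) : ℝ :=
  ∑ p ∈ (prs y x).filter (fun p => ¬ G p P), Real.log p / p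

lemma badS_nonneg (G : ℕ → ℤ[X] → Prop) (y x : ℝ) (P : ℤ[X]) : 0 ≤ badS G y x P :=
  Finset.sum_nonneg fun p _ => div_nonneg (logp_nonneg p) (Nat.cast_nonneg p)

/-- The sum of `log n / n ^ 2`. -/
lemma sum_log_sq : ∃ c : ℝ, 0 ≤ c ∧ ∀ Q : Finset ℕ, ∑ p ∈ Q, Real.log p / (p : ℝ) ^ 2 ≤ c := by
  have hs : Summable fun n : ℕ => 2 * (1 / (n : ℝ) ^ (3 / 2 : ℝ)) :=
    (Real.summable_one_div_nat_rpow.2 (by norm_num)).mul_left 2
  refine ⟨∑' n : ℕ, 2 * (1 / (n : ℝ) ^ (3 / 2 : ℝ)), tsum_nonneg fun n => by positivity, fun Q => ?_⟩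
  refine le_trans (Finset.sum_le_sum fun p _ => ?_) (hs.sum_le_tsum Q fun n _ => by positivity)
  rcases Nat.eq_zero_or_pos p with h | h
  · subst h
    simp
  · have hp : (0 : ℝ) < p := by exact_mod_cast h
    have h1 := Real.log_natCast_le_rpow_div p (ε := 1 / 2) (by norm_num)
    rw [div_le_iff₀ (by positivity)]
    refine h1.trans (le_of_eq ?_)
    rw [div_div_eq_mul_div, div_one]
    have h2 : (p : ℝ) ^ 2 = (p : ℝ) ^ (3 / 2 : ℝ) * (p : ℝ) ^ (1 / 2 : ℝ) := by
      rw [← Real.rpow_add hp, ← Real.rpow_natCast]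
      norm_num
    rw [h2]
    have h3 : (0 : ℝ) < (p : ℝ) ^ (3 / 2 : ℝ) := by positivity
    field_simp

lemma log_div_le {p : ℕ} {W : ℝ} (hW : 0 ≤ W) : Real.log p / p ≤ Real.log p / (p + W) + W * (Real.log p / (p : ℝ) ^ 2) := by
  rcases Nat.eq_zero_or_pos p with h | h
  · subst h
    simp
  · have hp : (0 : ℝ) < p := by exact_mod_cast h
    have h1 : 0 ≤ Real.log p := logp_nonneg p
    have h2 : Real.log p / p - Real.log p / (p + W) = Real.log p * W / (p * (p + W)) := by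
      field_simp
      ring
    have h3 : Real.log p * W / (p * (p + W)) ≤ Real.log p * W / (p * p) := by
      refine div_le_div_of_nonneg_left (by positivity) (by positivity) ?_
      nlinarith
    have h4 : W * (Real.log p / (p : ℝ) ^ 2) = Real.log p * W / (p * p) := by
      field_simp
    linarith

lemma theta_prs {y x : ℝ} (hx : 0 ≤ x) : ∑ p ∈ prs y x, Real.log p ≤ 2 * x :=
  (Finset.sum_le_sum_of_subset_of_nonneg (filter_subset _ _) fun p _ _ => logp_nonneg p).trans (theta_le hx)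

/-- **One algebraic number of large degree.** -/
theorem single {θ W : ℝ} (hθ : 0 < θ) (hW : 0 ≤ W) : ∃ C : ℝ, 0 ≤ C ∧ ∀ (G : ℕ → ℤ[X] → Prop) (y H : ℝ),
    1 ≤ y → 0 ≤ H → ∀ P : ℤ[X], Orb P → Real.log (mm P) ≤ P.natDegree * H →
      (∀ p ∈ prs y P.natDegree, Test θ W G p) →
        Real.log (P.natDegree / y) - 2 * θ * H - C ≤ badS G y P.natDegree P := by
  classical
  obtain ⟨c, hc0, hc⟩ := mertens
  obtain ⟨c₂, hc₂0, hc₂⟩ := sum_log_sq
  refine ⟨2 * c + 6 * θ + W * c₂, by positivity, fun G y H hy hH P hP hPH hT => ?_⟩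
  obtain ⟨N, hN⟩ : ∃ N : ℝ, N = P.natDegree := ⟨_, rfl⟩
  have hN1 : 1 ≤ N := by
    rw [hN]
    exact_mod_cast hP.2.1
  rw [← hN] at hT hPH ⊢
  rcases lt_or_ge N y with h | h
  · have h1 : Real.log (N / y) ≤ 0 := Real.log_nonpos (by positivity) (by rw [div_le_one (by linarith)]; exact h.le)
    have h2 := badS_nonneg G y N P
    have h3 : 0 ≤ W * c₂ := by positivity
    have h4 : 0 ≤ 2 * θ * H := by positivity
    linarith
  · have h1 := (sum_prs hc hy h).1
    set Q := (prs y N).filter (fun p => G p P) with hQ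
    have h2 : ∑ p ∈ prs y N, Real.log p / p = ∑ p ∈ Q, Real.log p / p + badS G y N P :=
      (Finset.sum_filter_add_sum_filter_not _ _ _).symm
    have h3 := core hθ hW Q (fun p hp => hT p (mem_filter.1 hp).1) (S := {P}) (singleton_nonempty P) hH
      (fun R hR => by
        rw [mem_singleton] at hR
        subst hR
        rw [← hN]
        exact ⟨hP, hPH⟩) (D := N) (by rw [sum_singleton, hN])
    have h4 : ∀ p ∈ Q, (dg G {P} p : ℝ) = N := by
      intro p hp
      unfold dg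
      rw [Finset.filter_singleton, if_pos (mem_filter.1 hp).2, sum_singleton, hN]
    have h5 : ∑ p ∈ Q, Real.log p * ((dg G {P} p : ℝ) ^ 2 / (p + W)) = N ^ 2 * ∑ p ∈ Q, Real.log p / (p + W) := by
      rw [Finset.mul_sum]
      refine Finset.sum_congr rfl fun p hp => ?_
      rw [h4 p hp]
      ring
    have h6 : ∑ p ∈ Q, Real.log p * (dg G {P} p : ℝ) ≤ N * (2 * N) := by
      have e1 : ∑ p ∈ Q, Real.log p * (dg G {P} p : ℝ) = N * ∑ p ∈ Q, Real.log p := by
        rw [Finset.mul_sum]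
        refine Finset.sum_congr rfl fun p hp => ?_
        rw [h4 p hp]
        ring
      rw [e1]
      refine mul_le_mul_of_nonneg_left ?_ (by linarith)
      exact (Finset.sum_le_sum_of_subset_of_nonneg (filter_subset _ _) fun p _ _ => logp_nonneg p).trans
        (theta_prs (by linarith))
    rw [h5] at h3
    have h7 : Real.log N ≤ N := by
      have := Real.log_le_sub_one_of_pos (by linarith : (0 : ℝ) < N)
      linarith
    have h8 : N ^ 2 * ∑ p ∈ Q, Real.log p / (p + W) ≤ N ^ 2 * (2 * θ * (H + 3)) := by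
      refine h3.trans ?_
      have e1 : N ^ 2 * H + N * Real.log N + ∑ p ∈ Q, Real.log p * (dg G {P} p : ℝ) ≤ N ^ 2 * (H + 3) := by
        nlinarith
      calc _ ≤ 2 * θ * (N ^ 2 * (H + 3)) := mul_le_mul_of_nonneg_left e1 (by positivity)
        _ = _ := by ring
    have h9 := le_of_mul_le_mul_left h8 (by positivity)
    have h10 : ∑ p ∈ Q, Real.log p / p ≤ ∑ p ∈ Q, Real.log p / (p + W) + W * c₂ := by
      calc ∑ p ∈ Q, Real.log p / p ≤ ∑ p ∈ Q, (Real.log p / (p + W) + W * (Real.log p / (p : ℝ) ^ 2)) :=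
            Finset.sum_le_sum fun p _ => log_div_le hW
        _ = ∑ p ∈ Q, Real.log p / (p + W) + W * ∑ p ∈ Q, Real.log p / (p : ℝ) ^ 2 := by
            rw [Finset.sum_add_distrib, Finset.mul_sum]
        _ ≤ _ := by
            have := mul_le_mul_of_nonneg_left (hc₂ Q) hW
            linarith
    linarith

lemma sum_dg (G : ℕ → ℤ[X] → Prop) (S : Finset ℤ[X]) (Q : Finset ℕ) (f : ℕ → ℝ) :
    ∑ p ∈ Q, f p * dg G S p = ∑ P ∈ S, (P.natDegree : ℝ) * ∑ p ∈ Q, (open Classical in if G p P then f p else 0) := by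
  classical
  have h1 : ∀ p ∈ Q, f p * dg G S p = ∑ P ∈ S, (P.natDegree : ℝ) * (if G p P then f p else 0) := by
    intro p _
    unfold dg
    push_cast
    rw [Finset.sum_filter, Finset.mul_sum]
    refine Finset.sum_congr rfl fun P _ => ?_
    split_ifs <;> ring
  rw [Finset.sum_congr rfl h1, Finset.sum_comm]
  refine Finset.sum_congr rfl fun P _ => ?_
  rw [Finset.mul_sum]

/-- **The number of the algebraic numbers with few bad primes.** -/
theorem count {θ W β : ℝ} (hθ : 0 < θ) (hW : 0 ≤ W) (hβ : 0 < β) (M : ℝ) : ∃ C : ℝ, 1 ≤ C ∧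
    ∀ (G : ℕ → ℤ[X] → Prop) (y H x : ℝ), 1 ≤ y → 0 ≤ H → x = C * y * Real.exp (2 * θ * H / β ^ 2) →
      (∀ p ∈ prs y x, Test θ W G p) → ∀ S : Finset ℤ[X],
        (∀ P ∈ S, Orb P ∧ Real.log (mm P) ≤ P.natDegree * H ∧ badS G y x P ≤ (1 - β) * Real.log (x / y) + M) →
          ∑ P ∈ S, (P.natDegree : ℝ) ≤ x := by
  classical
  obtain ⟨c, hc0, hc⟩ := mertens
  obtain ⟨c₂, hc₂0, hc₂⟩ := sum_log_sq
  obtain ⟨M₂, hM₂⟩ : ∃ M₂, M₂ = 2 * c + |M| := ⟨_, rfl⟩
  have hM₂0 : 0 ≤ M₂ := by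
    have := abs_nonneg M
    rw [hM₂]
    positivity
  obtain ⟨K, hK⟩ : ∃ K, K = 2 * c + 2 * M₂ / β := ⟨_, rfl⟩
  have hK0 : 0 ≤ K := by
    rw [hK]
    positivity
  have hKβ : β * K = 2 * c * β + 2 * M₂ := by
    rw [hK]
    field_simp
  refine ⟨Real.exp (K + (6 * θ + W * c₂) / β ^ 2), Real.one_le_exp (by positivity), ?_⟩
  intro G y H x hy hH hx hT S hS
  obtain ⟨a, ha⟩ : ∃ a, a = 2 * θ * H + (6 * θ + W * c₂) := ⟨_, rfl⟩
  have ha0 : 0 < a := by
    rw [ha]
    positivity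
  obtain ⟨Λ, hΛ⟩ : ∃ Λ, Λ = K + a / β ^ 2 := ⟨_, rfl⟩
  have hΛ0 : 0 < Λ := by
    rw [hΛ]
    positivity
  have hxΛ : x = y * Real.exp Λ := by
    rw [hx, hΛ, ha, mul_comm _ y, mul_assoc, ← Real.exp_add]
    congr 2
    field_simp
    ring
  have hyx : y ≤ x := by
    rw [hxΛ]
    have := Real.one_le_exp hΛ0.le
    nlinarith
  have hx1 : 1 ≤ x := hy.trans hyx
  have hlogxy : Real.log (x / y) = Λ := by
    rw [hxΛ, mul_div_assoc, mul_comm, div_mul_cancel₀ _ (by linarith : y ≠ 0), Real.log_exp]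
  rw [hlogxy] at hS
  have hγ0 : 0 ≤ β * Λ - M₂ := by
    have h1 : β * K ≤ β * Λ := by
      refine mul_le_mul_of_nonneg_left ?_ hβ.le
      rw [hΛ]
      have : 0 ≤ a / β ^ 2 := by positivity
      linarith
    have h2 : 0 ≤ 2 * c * β := by positivity
    linarith
  by_contra hcon
  push Not at hcon
  obtain ⟨D, hD⟩ : ∃ D : ℝ, D = ∑ P ∈ S, (P.natDegree : ℝ) := ⟨_, rfl⟩
  rw [← hD] at hcon
  have hD0 : 0 < D := by linarith
  have hne : S.Nonempty := by
    rw [Finset.nonempty_iff_ne_empty]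
    rintro rfl
    rw [sum_empty] at hD
    linarith
  have hdgD : ∀ p, (dg G S p : ℝ) ≤ D := by
    intro p
    rw [hD]
    have := dg_le G S p
    exact_mod_cast this
  have key := core hθ hW (prs y x) hT hne hH (fun P hP => ⟨(hS P hP).1, (hS P hP).2.1⟩) hD
  -- the upper bound
  have h1 : ∑ p ∈ prs y x, Real.log p * (dg G S p : ℝ) ≤ D * (2 * x) := by
    calc ∑ p ∈ prs y x, Real.log p * (dg G S p : ℝ) ≤ ∑ p ∈ prs y x, Real.log p * D :=
          Finset.sum_le_sum fun p _ => mul_le_mul_of_nonneg_left (hdgD p) (logp_nonneg p)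
      _ = D * ∑ p ∈ prs y x, Real.log p := by rw [← Finset.sum_mul, mul_comm]
      _ ≤ D * (2 * x) := mul_le_mul_of_nonneg_left (theta_prs (by linarith)) hD0.le
  have h7 : Real.log D ≤ D := by
    have := Real.log_le_sub_one_of_pos hD0
    linarith
  have h2 : ∑ p ∈ prs y x, Real.log p * ((dg G S p : ℝ) ^ 2 / (p + W)) < D ^ 2 * (2 * θ * (H + 3)) := by
    refine key.trans_lt ?_
    have e1 : D ^ 2 * H + D * Real.log D + ∑ p ∈ prs y x, Real.log p * (dg G S p : ℝ) < D ^ 2 * (H + 3) := by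
      nlinarith
    calc _ < 2 * θ * (D ^ 2 * (H + 3)) := mul_lt_mul_of_pos_left e1 (by positivity)
      _ = _ := by ring
  have h3 : ∑ p ∈ prs y x, Real.log p / p * (dg G S p : ℝ) ^ 2 < D ^ 2 * a := by
    have e1 : ∀ p ∈ prs y x, Real.log p / p * (dg G S p : ℝ) ^ 2 ≤
        Real.log p * ((dg G S p : ℝ) ^ 2 / (p + W)) + D ^ 2 * W * (Real.log p / (p : ℝ) ^ 2) := by
      intro p _
      have e2 := mul_le_mul_of_nonneg_right (log_div_le (p := p) hW) (sq_nonneg (dg G S p : ℝ))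
      have e3 : (dg G S p : ℝ) ^ 2 ≤ D ^ 2 := pow_le_pow_left₀ (Nat.cast_nonneg _) (hdgD p) 2
      have e4 : W * (Real.log p / (p : ℝ) ^ 2) * (dg G S p : ℝ) ^ 2 ≤ W * (Real.log p / (p : ℝ) ^ 2) * D ^ 2 :=
        mul_le_mul_of_nonneg_left e3 (mul_nonneg hW (div_nonneg (logp_nonneg p) (sq_nonneg _)))
      calc _ ≤ _ := e2
        _ = Real.log p * ((dg G S p : ℝ) ^ 2 / (p + W)) + W * (Real.log p / (p : ℝ) ^ 2) * (dg G S p : ℝ) ^ 2 := by
            ring
        _ ≤ _ := by linarith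
    have e2 := Finset.sum_le_sum e1
    rw [Finset.sum_add_distrib, ← Finset.mul_sum] at e2
    have e3 : D ^ 2 * W * ∑ p ∈ prs y x, Real.log p / (p : ℝ) ^ 2 ≤ D ^ 2 * W * c₂ :=
      mul_le_mul_of_nonneg_left (hc₂ _) (by positivity)
    rw [ha]
    nlinarith
  -- the lower bound
  have h4 : D * (β * Λ - M₂) ≤ ∑ p ∈ prs y x, Real.log p / p * dg G S p := by
    rw [sum_dg G S (prs y x) fun p => Real.log p / p, hD, Finset.sum_mul]
    refine Finset.sum_le_sum fun P hP => mul_le_mul_of_nonneg_left ?_ (Nat.cast_nonneg _)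
    rw [← Finset.sum_filter]
    have e1 : ∑ p ∈ prs y x, Real.log p / p =
        ∑ p ∈ (prs y x).filter (fun p => G p P), Real.log p / p + badS G y x P :=
      (Finset.sum_filter_add_sum_filter_not _ _ _).symm
    have e2 := (sum_prs hc hy hyx).1
    rw [hlogxy] at e2
    have e3 := (hS P hP).2.2
    have e4 := le_abs_self M
    rw [hM₂]
    linarith
  have h5 : (∑ p ∈ prs y x, Real.log p / p * dg G S p) ^ 2 ≤
      (∑ p ∈ prs y x, Real.log p / p) * ∑ p ∈ prs y x, Real.log p / p * (dg G S p : ℝ) ^ 2 := by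
    refine Finset.sum_sq_le_sum_mul_sum_of_sq_le_mul (prs y x) (fun p _ => ?_) (fun p _ => ?_) fun p _ => ?_
    · exact div_nonneg (logp_nonneg p) (Nat.cast_nonneg p)
    · exact mul_nonneg (div_nonneg (logp_nonneg p) (Nat.cast_nonneg p)) (sq_nonneg _)
    · exact le_of_eq (by ring)
  have h6 := (sum_prs hc hy hyx).2
  rw [hlogxy] at h6
  have h8 : (D * (β * Λ - M₂)) ^ 2 < D ^ 2 * (a * (Λ + 2 * c)) := by
    calc (D * (β * Λ - M₂)) ^ 2 ≤ (∑ p ∈ prs y x, Real.log p / p * dg G S p) ^ 2 :=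
          pow_le_pow_left₀ (by positivity) h4 2
      _ ≤ (∑ p ∈ prs y x, Real.log p / p) * ∑ p ∈ prs y x, Real.log p / p * (dg G S p : ℝ) ^ 2 := h5
      _ ≤ (Λ + 2 * c) * ∑ p ∈ prs y x, Real.log p / p * (dg G S p : ℝ) ^ 2 := by
          refine mul_le_mul_of_nonneg_right h6 (Finset.sum_nonneg fun p _ => ?_)
          exact mul_nonneg (div_nonneg (logp_nonneg p) (Nat.cast_nonneg p)) (sq_nonneg _)
      _ < (Λ + 2 * c) * (D ^ 2 * a) := mul_lt_mul_of_pos_left h3 (by positivity)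
      _ = _ := by ring
  rw [mul_pow] at h8
  have h9 := lt_of_mul_lt_mul_left h8 (sq_nonneg D)
  have h10 : a * (Λ + 2 * c) ≤ (β * Λ - M₂) ^ 2 := by
    have e1 : β ^ 2 * Λ = β ^ 2 * K + a := by
      rw [hΛ]
      field_simp
    have e2 : (β * Λ - M₂) ^ 2 = Λ * (β ^ 2 * Λ) - 2 * M₂ * (β * Λ) + M₂ ^ 2 := by ring
    rw [e2, e1]
    have e3 : β ^ 2 * K = β * (2 * c * β + 2 * M₂) := by
      rw [← hKβ]
      ring
    rw [e3]
    have e4 : a ≤ β ^ 2 * Λ := by
      rw [e1]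
      have : 0 ≤ β ^ 2 * K := by positivity
      linarith
    have e5 : a * (2 * c) ≤ β ^ 2 * Λ * (2 * c) := by gcongr
    nlinarith [sq_nonneg M₂]
  linarith

end Pool.Agent.H446.AP4
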