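import Pool.Agent.H446.AP.Core

/-!
# The resultant of a product and its derivative
-/

set_option autoImplicit false

namespace Pool.Agent.H446.AP4

open Polynomial Finset Pool.Agent.H446.AP

lemma natDegree_derivative_int (P : ℤ[X]) : (derivative P).natDegree = P.natDegree - 1 := by
  rcases Nat.eq_zero_or_pos P.natDegree with h | h
  · rw [h, derivative_of_natDegree_zero h, natDegree_zero]
  refine le_antisymm (natDegree_derivative_le P) (le_natDegree_of_ne_zero ?_)
  rw [coeff_derivative]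
  have h4 : P.natDegree - 1 + 1 = P.natDegree := by omega
  rw [h4]
  have h5 : P.coeff P.natDegree ≠ 0 := by
    intro h0
    have : P = 0 := leadingCoeff_eq_zero.1 h0
    rw [this, natDegree_zero] at h
    omega
  have h6 : ((P.natDegree - 1 : ℕ) : ℤ) + 1 ≠ 0 := by positivity
  exact mul_ne_zero h5 h6

lemma rd_mul (P Q : ℤ[X]) (hP : 0 < P.natDegree) (hQ : 0 < Q.natDegree) :
    rd (P * Q) = rd P * resultant P Q P.natDegree Q.natDegree *
      (resultant Q P Q.natDegree P.natDegree * rd Q) := by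
  have hP0 : P ≠ 0 := by
    rintro rfl
    simp at hP
  have hQ0 : Q ≠ 0 := by
    rintro rfl
    simp at hQ
  have hdP := natDegree_derivative_int P
  have hdQ := natDegree_derivative_int Q
  unfold rd
  rw [natDegree_mul hP0 hQ0, resultant_mul_left P Q _ _ (by
    have := natDegree_derivative_int (P * Q)
    rw [natDegree_mul hP0 hQ0] at this
    omega)]
  have e0 : derivative (P * Q) = derivative P * Q + P * derivative Q := derivative_mul
  have e1 : resultant P (derivative (P * Q)) P.natDegree (P.natDegree + Q.natDegree - 1) =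
      resultant P (derivative P) P.natDegree (P.natDegree - 1) * resultant P Q P.natDegree Q.natDegree := by
    have h1 : P.natDegree + Q.natDegree - 1 = (derivative P).natDegree + Q.natDegree := by omega
    rw [e0, resultant_add_mul_right _ _ _ _ _ (by omega) le_rfl, h1, resultant_mul_right _ _ _ _ le_rfl, hdP]
  have e2 : resultant Q (derivative (P * Q)) Q.natDegree (P.natDegree + Q.natDegree - 1) =
      resultant Q P Q.natDegree P.natDegree * resultant Q (derivative Q) Q.natDegree (Q.natDegree - 1) := by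
    have h1 : P.natDegree + Q.natDegree - 1 = P.natDegree + (derivative Q).natDegree := by omega
    have e3 : derivative P * Q + P * derivative Q = P * derivative Q + Q * derivative P := by ring
    rw [e0, e3, resultant_add_mul_right _ _ _ _ _ (by omega) le_rfl, h1, resultant_mul_right _ _ _ _ le_rfl, hdQ]
  rw [e1, e2]

lemma rd_dvd_mul (P Q : ℤ[X]) (hP : 0 < P.natDegree) (hQ : 0 < Q.natDegree) : rd P ∣ rd (P * Q) := by
  rw [rd_mul P Q hP hQ, mul_assoc]
  exact dvd_mul_right _ _

/-- The product of some orbits. -/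
noncomputable def pd (S : Finset ℤ[X]) : ℤ[X] := ∏ P ∈ S, P

lemma pd_ne_zero {S : Finset ℤ[X]} (hS : ∀ P ∈ S, Orb P) : pd S ≠ 0 :=
  Finset.prod_ne_zero_iff.2 fun P hP => (hS P hP).ne_zero

lemma natDegree_pd {S : Finset ℤ[X]} (hS : ∀ P ∈ S, Orb P) : (pd S).natDegree = ∑ P ∈ S, P.natDegree :=
  natDegree_prod _ _ fun P hP => (hS P hP).ne_zero

lemma natDegree_pd_pos {S : Finset ℤ[X]} (hS : ∀ P ∈ S, Orb P) (hne : S.Nonempty) : 0 < (pd S).natDegree := by
  obtain ⟨P, hP⟩ := hne
  rw [natDegree_pd hS]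
  exact lt_of_lt_of_le (hS P hP).2.1 (Finset.single_le_sum (f := fun P => P.natDegree) (fun _ _ => Nat.zero_le _) hP)

lemma rd_pd_dvd {S T : Finset ℤ[X]} (hS : ∀ P ∈ S, Orb P) (hT : T ⊆ S) (hne : T.Nonempty) :
    rd (pd T) ∣ rd (pd S) := by
  classical
  have hT' : ∀ P ∈ T, Orb P := fun P hP => hS P (hT hP)
  have h1 : pd S = pd T * pd (S \ T) := by
    unfold pd
    rw [mul_comm]
    exact (Finset.prod_sdiff hT).symm
  rcases (S \ T).eq_empty_or_nonempty with h | h
  · rw [h1, h]
    simp [pd]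
  · rw [h1]
    exact rd_dvd_mul _ _ (natDegree_pd_pos hT' hne)
      (natDegree_pd_pos (fun P hP => hS P (Finset.mem_sdiff.1 hP).1) h)

lemma isCoprime_of_ne {P Q : ℤ[X]} (hP : Orb P) (hQ : Orb Q) (hne : P ≠ Q) :
    IsCoprime (P.map (Int.castRingHom ℚ)) (Q.map (Int.castRingHom ℚ)) := by
  have hiP := (IsPrimitive.Int.irreducible_iff_irreducible_map_cast hP.primitive).1 hP.1
  rw [hiP.coprime_iff_not_dvd]
  intro hd
  have h1 := (IsPrimitive.Int.dvd_iff_map_cast_dvd_map_cast P Q hP.primitive).2 hd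
  have h2 := hP.1.associated_of_dvd hQ.1 h1
  obtain ⟨u, hu⟩ := h2
  obtain ⟨a, ha, hau⟩ := Polynomial.isUnit_iff.1 u.isUnit
  rw [← hau] at hu
  rcases Int.isUnit_iff.1 ha with rfl | rfl
  · apply hne
    rw [← hu]
    simp
  · have h3 := hQ.2.2
    rw [← hu] at h3
    have h4 := hP.2.2
    simp at h3
    omega

lemma separable_pd {S : Finset ℤ[X]} (hS : ∀ P ∈ S, Orb P) : ((pd S).map (Int.castRingHom ℚ)).Separable := by
  unfold pd
  rw [Polynomial.map_prod]
  refine separable_prod' (fun P hP Q hQ hne => isCoprime_of_ne (hS P hP) (hS Q hQ) hne) fun P hP => ?_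
  exact ((IsPrimitive.Int.irreducible_iff_irreducible_map_cast (hS P hP).primitive).1 (hS P hP).1).separable

lemma rd_pd_ne_zero {S : Finset ℤ[X]} (hS : ∀ P ∈ S, Orb P) : rd (pd S) ≠ 0 := by
  have hco : IsCoprime ((pd S).map (Int.castRingHom ℚ)) ((derivative (pd S)).map (Int.castRingHom ℚ)) := by
    rw [← derivative_map]
    exact separable_pd hS
  have h1 := resultant_ne_zero _ _ hco
  rw [natDegree_map_eq_of_injective (RingHom.injective_int _),
    natDegree_map_eq_of_injective (RingHom.injective_int _), resultant_map_map, natDegree_derivative_int] at h1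
  intro h
  apply h1
  unfold rd at h
  rw [h, map_zero]

lemma mm_pd {S : Finset ℤ[X]} : mm (pd S) = ∏ P ∈ S, mm P := by
  classical
  unfold mm pd
  induction S using Finset.induction_on with
  | empty => simp
  | insert P S hP ih => rw [Finset.prod_insert hP, Finset.prod_insert hP, Polynomial.map_mul, mahlerMeasure_mul, ih]

lemma log_mm_pd {S : Finset ℤ[X]} (hS : ∀ P ∈ S, Orb P) {H : ℝ} (hH : ∀ P ∈ S, Real.log (mm P) ≤ P.natDegree * H) :
    Real.log (mm (pd S)) ≤ (pd S).natDegree * H := by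
  rw [mm_pd, Real.log_prod fun P hP => (lt_of_lt_of_le one_pos (one_le_mm (hS P hP).ne_zero)).ne', natDegree_pd hS]
  push_cast
  rw [Finset.sum_mul]
  exact Finset.sum_le_sum hH

/-- An upper bound for the resultant of `F` and its derivative. -/
lemma log_rd_le {F : ℤ[X]} (hF : 0 < F.natDegree) (hrd : rd F ≠ 0) {ℓ : ℝ}
    (hℓ : Real.log (mm F) ≤ F.natDegree * ℓ) (hℓ0 : 0 ≤ ℓ) :
    Real.log |(rd F : ℝ)| ≤ 2 * F.natDegree * Real.log F.natDegree + 2 * (F.natDegree : ℝ) ^ 2 * ℓ := by
  have hF0 : F ≠ 0 := by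
    intro h
    rw [h, natDegree_zero] at hF
    exact lt_irrefl _ hF
  set D := F.natDegree with hD
  have hD1 : 1 ≤ D := hF
  have hD1' : (1 : ℝ) ≤ D := by exact_mod_cast hD1
  have h1 := abs_resultant_deriv_le (P := F) hF
  rw [← hD] at h1
  have h0 : (0 : ℝ) < |(rd F : ℝ)| := by
    rw [abs_pos]
    exact_mod_cast hrd
  have hm := one_le_mm hF0
  have h2 : Real.log |(rd F : ℝ)| ≤ Real.log ((D.factorial : ℝ) ^ 2 * mm F ^ (2 * D - 1)) := Real.log_le_log h0 h1
  have hfac : (0 : ℝ) < D.factorial := by exact_mod_cast D.factorial_pos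
  rw [Real.log_mul (by positivity) (by positivity), Real.log_pow, Real.log_pow] at h2
  have h3 : Real.log (D.factorial : ℝ) ≤ D * Real.log D := by
    rw [← Real.log_pow]
    refine Real.log_le_log hfac ?_
    exact_mod_cast Nat.factorial_le_pow D
  have h4 : ((2 * D - 1 : ℕ) : ℝ) ≤ 2 * D := by
    have : 2 * D - 1 ≤ 2 * D := by omega
    exact_mod_cast this
  have h5 : 0 ≤ Real.log (mm F) := Real.log_nonneg hm
  have h6 : ((2 * D - 1 : ℕ) : ℝ) * Real.log (mm F) ≤ (2 * D) * (D * ℓ) := by
    have := Real.log_nonneg hD1'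
    calc ((2 * D - 1 : ℕ) : ℝ) * Real.log (mm F) ≤ (2 * D) * Real.log (mm F) := by gcongr
      _ ≤ (2 * D) * (D * ℓ) := by gcongr
  push_cast at h2
  nlinarith

end Pool.Agent.H446.AP4
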