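import Pool.Agent.H446.AP4.Count
import Pool.Agent.H446.AP2.Pairs

/-!
# Many rational numbers whose denominators have few small prime factors
-/

set_option autoImplicit false

namespace Pool.Agent.H446.AP4

open Finset Pool.Agent.H446.AP Pool.Agent.H446.AP2

/-- The sum of `log p / p` over the prime factors. -/
noncomputable def gl (b : ℕ) : ℝ := ∑ p ∈ b.primeFactors, Real.log p / p

lemma gl_nonneg (b : ℕ) : 0 ≤ gl b := Finset.sum_nonneg fun p _ => div_nonneg (logp_nonneg p) (Nat.cast_nonneg p)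

lemma sum_gl_le {c : ℝ} (hc : ∀ Q : Finset ℕ, ∑ p ∈ Q, Real.log p / (p : ℝ) ^ 2 ≤ c) (N : ℕ) :
    ∑ b ∈ Icc 1 N, gl b ≤ N * c := by
  classical
  have h1 : ∀ b ∈ Icc 1 N, gl b ≤ ∑ p ∈ Icc 1 N, if p ∣ b then Real.log p / p else 0 := by
    intro b hb
    rw [mem_Icc] at hb
    rw [← Finset.sum_filter]
    refine Finset.sum_le_sum_of_subset_of_nonneg ?_ fun p _ _ => div_nonneg (logp_nonneg p) (Nat.cast_nonneg p)
    intro p hp
    rw [Nat.mem_primeFactors] at hp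
    rw [mem_filter, mem_Icc]
    exact ⟨⟨hp.1.one_lt.le, (Nat.le_of_dvd (by omega) hp.2.1).trans hb.2⟩, hp.2.1⟩
  refine (Finset.sum_le_sum h1).trans ?_
  rw [Finset.sum_comm]
  have h2 : ∀ p ∈ Icc 1 N, ∑ b ∈ Icc 1 N, (if p ∣ b then Real.log p / p else 0) ≤ N * (Real.log p / (p : ℝ) ^ 2) := by
    intro p hp
    rw [mem_Icc] at hp
    have hp0 : (0 : ℝ) < p := by exact_mod_cast hp.1
    rw [← Finset.sum_filter, Finset.sum_const, nsmul_eq_mul]
    have h4 : ((Icc 1 N).filter fun a => p ∣ a).card = N / p := by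
      rw [← Nat.Ioc_filter_dvd_card_eq_div N p]
      rfl
    rw [h4]
    have h6 : ((N / p : ℕ) : ℝ) ≤ N / p := Nat.cast_div_le
    calc ((N / p : ℕ) : ℝ) * (Real.log p / p) ≤ (N / p) * (Real.log p / p) :=
          mul_le_mul_of_nonneg_right h6 (div_nonneg (logp_nonneg p) hp0.le)
      _ = _ := by field_simp
  refine (Finset.sum_le_sum h2).trans ?_
  rw [← Finset.mul_sum]
  exact mul_le_mul_of_nonneg_left (hc _) (Nat.cast_nonneg _)

/-- Many coprime pairs of odd numbers. -/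
lemma pairs : ∃ M : ℝ, 0 ≤ M ∧ ∀ N : ℕ, 1 ≤ N → (N : ℝ) ^ 2 / 24 ≤
    ((((Icc 1 (2 * N)) ×ˢ (Icc 1 (2 * N))).filter fun x : ℕ × ℕ =>
      Nat.Coprime x.1 x.2 ∧ Odd x.1 ∧ Odd x.2 ∧ gl x.2 ≤ M).card : ℝ) := by
  classical
  obtain ⟨c, hc0, hc⟩ := sum_log_sq
  refine ⟨96 * c + 1, by positivity, fun N hN => ?_⟩
  have h1 := odd_pairs N hN
  obtain ⟨M, hM⟩ : ∃ M, M = 96 * c + 1 := ⟨_, rfl⟩
  rw [← hM]
  have hM0 : 0 < M := by
    rw [hM]
    positivity
  set A := ((Icc 1 (2 * N)) ×ˢ (Icc 1 (2 * N))).filter fun x : ℕ × ℕ =>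
      Nat.Coprime x.1 x.2 ∧ Odd x.1 ∧ Odd x.2 with hA
  set B := ((Icc 1 (2 * N)) ×ˢ (Icc 1 (2 * N))).filter fun x : ℕ × ℕ =>
      Nat.Coprime x.1 x.2 ∧ Odd x.1 ∧ Odd x.2 ∧ gl x.2 ≤ M with hB
  set E := (Icc 1 (2 * N)) ×ˢ ((Icc 1 (2 * N)).filter fun b => M < gl b) with hE
  have h2 : A ⊆ B ∪ E := by
    intro x hx
    rw [hA, mem_filter, mem_product] at hx
    rw [mem_union, hB, hE, mem_filter, mem_product, mem_product, mem_filter]
    rcases le_or_gt (gl x.2) M with h | h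
    · left
      exact ⟨hx.1, hx.2.1, hx.2.2.1, hx.2.2.2, h⟩
    · right
      exact ⟨hx.1.1, hx.1.2, h⟩
  have h3 : (A.card : ℝ) ≤ B.card + E.card := by
    have := (Finset.card_le_card h2).trans (Finset.card_union_le B E)
    exact_mod_cast this
  have h4 : (((Icc 1 (2 * N)).filter fun b => M < gl b).card : ℝ) * M ≤ (2 * N : ℕ) * c := by
    refine le_trans ?_ (sum_gl_le hc (2 * N))
    calc (((Icc 1 (2 * N)).filter fun b => M < gl b).card : ℝ) * M
        = ∑ b ∈ (Icc 1 (2 * N)).filter (fun b => M < gl b), M := by rw [Finset.sum_const, nsmul_eq_mul]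
      _ ≤ ∑ b ∈ (Icc 1 (2 * N)).filter (fun b => M < gl b), gl b :=
          Finset.sum_le_sum fun b hb => (mem_filter.1 hb).2.le
      _ ≤ _ := Finset.sum_le_sum_of_subset_of_nonneg (filter_subset _ _) fun b _ _ => gl_nonneg b
  have h5 : (E.card : ℝ) = (2 * N) * ((Icc 1 (2 * N)).filter fun b => M < gl b).card := by
    rw [hE, card_product, Nat.card_Icc]
    push_cast
    ring
  have hN0 : (1 : ℝ) ≤ N := by exact_mod_cast hN
  have h6 : (E.card : ℝ) * M ≤ (N : ℝ) ^ 2 / 24 * M := by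
    rw [h5]
    push_cast at h4
    have e1 : 2 * (N : ℝ) * (((Icc 1 (2 * N)).filter fun b => M < gl b).card : ℝ) * M ≤ 2 * N * (2 * N * c) := by
      rw [mul_assoc]
      exact mul_le_mul_of_nonneg_left h4 (by positivity)
    refine e1.trans ?_
    rw [hM]
    nlinarith [sq_nonneg (N : ℝ)]
  have h7 := le_of_mul_le_mul_right h6 hM0
  linarith

end Pool.Agent.H446.AP4
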