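import Pool.Agent.H446.AP4.PInt

/-!
# Divisibility of the discriminant by high powers of `p`
-/

set_option autoImplicit false

namespace Pool.Agent.H446.AP4

open Matrix Polynomial Finset Pool.Agent.H446.AP

/-- The product of the differences of `D` complex numbers. -/
lemma prod_sub_eq' {D : ℕ} (v : Fin D → ℂ) :
    ∏ i, ∏ j ∈ univ.erase i, (v i - v j) =
      (∏ i : Fin D, ∏ _j ∈ Ioi i, (-1 : ℂ)) * (vandermonde v).det ^ 2 := by
  rw [det_vandermonde, sq]
  have h1 : ∀ i : Fin D, ∏ j ∈ univ.erase i, (v i - v j) =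
      (∏ j ∈ Ioi i, (v i - v j)) * ∏ j ∈ Iio i, (v i - v j) := by
    intro i
    rw [← Finset.prod_union]
    · refine Finset.prod_congr ?_ fun _ _ => rfl
      ext j
      simp only [mem_erase, mem_univ, and_true, mem_union, mem_Ioi, mem_Iio]
      exact ⟨fun h => (lt_or_gt_of_ne h).symm, fun h => h.elim (fun h => h.ne') fun h => h.ne⟩
    · rw [Finset.disjoint_left]
      intro j hj hj'
      rw [mem_Ioi] at hj
      rw [mem_Iio] at hj'
      exact absurd (hj.trans hj') (lt_irrefl _)
  rw [Finset.prod_congr rfl fun i _ => h1 i, Finset.prod_mul_distrib]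
  have h2 : ∏ i : Fin D, ∏ j ∈ Iio i, (v i - v j) = ∏ j : Fin D, ∏ i ∈ Ioi j, (v i - v j) := by
    refine Finset.prod_comm' ?_
    intro i j
    simp
  rw [h2, ← mul_assoc]
  congr 1
  rw [← Finset.prod_mul_distrib]
  refine Finset.prod_congr rfl fun i _ => ?_
  rw [← Finset.prod_mul_distrib]
  refine Finset.prod_congr rfl fun j _ => ?_
  ring

/-- The resultant of a polynomial and its derivative. -/
lemma resultant_deriv_eq (f : ℂ[X]) (hf0 : 0 < f.natDegree) {v : Fin f.natDegree → ℂ}
    (hv : f.roots = univ.val.map v) (hf : f = C f.leadingCoeff * ∏ i, (X - C (v i))) :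
    resultant f (derivative f) f.natDegree (f.natDegree - 1) =
      f.leadingCoeff ^ (2 * f.natDegree - 1) * ((∏ i : Fin f.natDegree, ∏ _j ∈ Ioi i, (-1 : ℂ)) *
        (vandermonde v).det ^ 2) := by
  rw [resultant_eq_prod_eval f _ _ (natDegree_derivative_le f) (IsAlgClosed.splits f), hv, Multiset.map_map]
  have h0 : (Multiset.map ((fun x => eval x (derivative f)) ∘ v) univ.val).prod =
      ∏ i, (derivative f).eval (v i) := rfl
  have h1 : ∀ i, (derivative f).eval (v i) = f.leadingCoeff * ∏ j ∈ univ.erase i, (v i - v j) := by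
    intro i
    conv_lhs => rw [hf]
    rw [derivative_C_mul, eval_mul, eval_C, derivative_prod_finset, eval_finsetSum]
    congr 1
    rw [Finset.sum_eq_single i]
    · rw [eval_mul, eval_prod]
      simp
    · intro j _ hji
      rw [eval_mul, eval_prod]
      have : ∏ k ∈ univ.erase j, eval (v i) (X - C (v k)) = 0 :=
        Finset.prod_eq_zero (mem_erase.2 ⟨hji.symm, mem_univ i⟩) (by simp)
      rw [this, zero_mul]
    · intro h
      exact absurd (mem_univ i) h
  rw [h0]
  simp only [h1]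
  rw [Finset.prod_mul_distrib, Finset.prod_const, card_univ, Fintype.card_fin, ← mul_assoc, ← pow_add,
    prod_sub_eq']
  congr 2
  omega

/-- The sum of `⌊j / q⌋` over `j < D`. -/
def vE (D q : ℕ) : ℕ := ∑ j ∈ range D, j / q

lemma vE_ge {D q : ℕ} (hq : 0 < q) : (D : ℝ) ^ 2 / (2 * q) - D ≤ vE D q := by
  have hq' : (0 : ℝ) < q := by exact_mod_cast hq
  have h1 : ∀ j : ℕ, ((j : ℝ) + 1) / q - 1 ≤ ((j / q : ℕ) : ℝ) := by
    intro j
    have h2 : j < q * (j / q + 1) := Nat.lt_mul_div_succ j hq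
    have h3 : ((j : ℝ) + 1) ≤ q * (((j / q : ℕ) : ℝ) + 1) := by
      have h4 : j + 1 ≤ q * (j / q + 1) := h2
      have : ((j + 1 : ℕ) : ℝ) ≤ ((q * (j / q + 1) : ℕ) : ℝ) := Nat.cast_le.2 h4
      push_cast at this
      exact this
    rw [sub_le_iff_le_add, div_le_iff₀ hq']
    linarith
  have h2 : ∑ j ∈ range D, (((j : ℝ) + 1) / q - 1) ≤ ((vE D q : ℕ) : ℝ) := by
    unfold vE
    push_cast
    exact Finset.sum_le_sum fun j _ => h1 j
  have h3 : ∀ D : ℕ, ∑ j ∈ range D, (((j : ℝ) + 1) / q - 1) = (D : ℝ) * (D + 1) / (2 * q) - D := by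
    intro D
    induction D with
    | zero => simp
    | succ D ih =>
      rw [Finset.sum_range_succ, ih]
      push_cast
      field_simp
      ring
  rw [h3] at h2
  refine le_trans ?_ h2
  have h4 : (D : ℝ) ^ 2 / (2 * q) ≤ (D : ℝ) * (D + 1) / (2 * q) := by
    gcongr
    nlinarith [(Nat.cast_nonneg D : (0 : ℝ) ≤ D)]
  linarith

/-- **The key lemma.** If the values of a polynomial of degree `q` at the roots of `F` are divisible by `p`, then a high
power of `p` divides the resultant of `F` and its derivative. -/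
theorem pow_dvd_rd {p : ℕ} [hp : Fact p.Prime] {F B : ℤ[X]} (hF0 : 0 < F.natDegree)
    (hF : ¬ (p : ℤ) ∣ F.leadingCoeff) (hB : ¬ (p : ℤ) ∣ B.leadingCoeff)
    (h : ∀ z : ℂ, aeval z F = 0 → ∃ y ∈ pInt p, aeval z B = p * y) :
    (p : ℤ) ^ (2 * vE F.natDegree B.natDegree) ∣ rd F := by
  classical
  set f := F.map (Int.castRingHom ℂ) with hf
  have hdeg : f.natDegree = F.natDegree := mm_natDegree F
  obtain ⟨v, hv, hfv⟩ := exists_roots f
  have hroot : ∀ i, aeval (v i) F = 0 := by
    intro i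
    have h5 : v i ∈ f.roots := by
      rw [hv]
      exact Multiset.mem_map_of_mem v (Finset.mem_univ i)
    have h6 := (mem_roots'.1 h5).2
    rw [IsRoot.def, hf, eval_map] at h6
    rw [aeval_def]
    rwa [show algebraMap ℤ ℂ = Int.castRingHom ℂ from RingHom.ext_int _ _]
  have hB0 : B ≠ 0 := by
    rintro rfl
    exact hB (by simp)
  have hlB : ((B.leadingCoeff : ℤ) : ℂ) ≠ 0 := by
    exact_mod_cast leadingCoeff_ne_zero.2 hB0
  set q := B.natDegree with hq
  set b : ℂ[X] := C ((B.leadingCoeff : ℤ) : ℂ)⁻¹ * B.map (Int.castRingHom ℂ) with hb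
  have hbq : (B.map (Int.castRingHom ℂ)).natDegree = q := mm_natDegree B
  have hbm : b.Monic := by
    rw [Monic, hb, leadingCoeff_mul, leadingCoeff_C,
      leadingCoeff_map_of_injective (RingHom.injective_int _), eq_intCast, inv_mul_cancel₀ hlB]
  have hbd : b.natDegree = q := by
    rw [hb, natDegree_C_mul (inv_ne_zero hlB), hbq]
  -- the polynomials
  let g : Fin f.natDegree → ℂ[X] := fun j => b ^ ((j : ℕ) / q) * X ^ ((j : ℕ) % q)
  have hgm : ∀ j, (g j).Monic := fun j => (hbm.pow _).mul (monic_X_pow _)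
  have hgd : ∀ j, (g j).natDegree = j := by
    intro j
    simp only [g]
    rw [(hbm.pow _).natDegree_mul (monic_X_pow _), hbm.natDegree_pow, natDegree_X_pow, hbd, mul_comm]
    exact Nat.div_add_mod _ _
  have hdet := det_eval_matrixOfPolynomials_eq_det_vandermonde v g hgd hgm
  choose y hy hyB using fun i => h (v i) (hroot i)
  have hbv : ∀ i, b.eval (v i) = p * (((B.leadingCoeff : ℤ) : ℂ)⁻¹ * y i) := by
    intro i
    rw [hb, eval_mul, eval_C, eval_map]
    have h1 := hyB i
    rw [aeval_def, show algebraMap ℤ ℂ = Int.castRingHom ℂ from RingHom.ext_int _ _] at h1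
    rw [h1]
    ring
  let e : Matrix (Fin f.natDegree) (Fin f.natDegree) ℂ := Matrix.of fun i j =>
    (((B.leadingCoeff : ℤ) : ℂ)⁻¹ * y i) ^ ((j : ℕ) / q) * (v i) ^ ((j : ℕ) % q)
  have he : ∀ i j, e i j ∈ pInt p := by
    intro i j
    exact (pInt p).mul_mem ((pInt p).pow_mem ((pInt p).mul_mem (inv_mem_pInt hB) (hy i)) _)
      ((pInt p).pow_mem (root_mem_pInt hF (hroot i)) _)
  have hM : (Matrix.of fun i j : Fin f.natDegree => (g j).eval (v i)) =
      Matrix.of fun i j : Fin f.natDegree => (p : ℂ) ^ ((j : ℕ) / q) * e i j := by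
    ext i j
    simp only [Matrix.of_apply, g, e]
    rw [eval_mul, eval_pow, eval_pow, eval_X, hbv, mul_pow]
    ring
  rw [hM, Matrix.det_mul_row, Finset.prod_pow_eq_pow_sum] at hdet
  have hE : ∑ j : Fin f.natDegree, (j : ℕ) / q = vE F.natDegree q := by
    rw [vE, ← hdeg, Finset.sum_range]
  rw [hE] at hdet
  have hed : e.det ∈ pInt p := by
    rw [Matrix.det_apply']
    refine (pInt p).sum_mem fun σ _ => (pInt p).mul_mem ?_ ((pInt p).prod_mem fun i _ => he _ _)
    exact intCast_mem (pInt p) _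
  have h1 := resultant_deriv_eq f (by rw [hdeg]; exact hF0) hv hfv
  have h2 : resultant f (derivative f) f.natDegree (f.natDegree - 1) = ((rd F : ℤ) : ℂ) := by
    rw [hdeg, hf, derivative_map, resultant_map_map, eq_intCast]
    rfl
  rw [h2, hdet] at h1
  refine pow_dvd_of_mem (z := f.leadingCoeff ^ (2 * f.natDegree - 1) *
    ((∏ i : Fin f.natDegree, ∏ _j ∈ Ioi i, (-1 : ℂ)) * e.det ^ 2)) ?_ ?_
  · refine (pInt p).mul_mem ((pInt p).pow_mem ?_ _) ((pInt p).mul_mem ?_ ((pInt p).pow_mem hed _))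
    · rw [hf, leadingCoeff_map_of_injective (RingHom.injective_int _), eq_intCast]
      exact intCast_mem (pInt p) _
    · exact (pInt p).prod_mem fun i _ => (pInt p).prod_mem fun _ _ => (pInt p).neg_mem (pInt p).one_mem
  · rw [h1, mul_pow, ← pow_mul]
    ring

end Pool.Agent.H446.AP4
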